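import Pool.Agent.Helper22.LT.Num

namespace Pool.Agent.Helper22.LT

open Real
open scoped Classical

theorem Hs_le {κ μ : ℝ} (hκ : 0 < κ) (hμ : 0 ≤ μ) (hμ1 : μ ≤ 1) (K : ℕ) :
    Hs κ μ (K + 1) ≤ 8 * √κ * (7 + √(2 * μ) * lg (μ * 2 ^ K)) := by
  have h1 : Hs κ μ (K + 1) = 8 * √κ * ∑ k ∈ Finset.range (K + 1), √(1 / 2 ^ k + μ) := by
    unfold Hs dl
    rw [Finset.mul_sum]
    refine Finset.sum_congr rfl fun k _ => ?_
    have e1 : κ * (1 + μ * 2 ^ k) / 2 ^ k = κ * (1 / 2 ^ k + μ) := by
      field_simp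
    rw [e1, sqrt_mul hκ.le]
    ring
  rw [h1]
  apply mul_le_mul_of_nonneg_left _ (by positivity)
  have h2 := sum_sqrt_le hμ K
  rw [if_pos hμ1, add_zero] at h2
  have h3 : 0 ≤ √(1 / 2 : ℝ) ^ (K + 1) := by positivity
  linarith

theorem final_num {t L T κ μ : ℝ} (ht : 0 ≤ t) (hL : log 2 ≤ L) (hT : T = max t L) (hμ : μ = L / T)
    (hκ : κ = 7 * T) {K : ℕ} (hK : 2 ^ K ≤ κ) :
    8 * √κ * (7 + √(2 * μ) * lg (μ * 2 ^ K)) ≤ 240 * (√t + √L * (1 + log (1 + L))) := by
  have hl2 := Real.log_two_gt_d9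
  have hl2' := Real.log_two_lt_d9
  have hL0 : 0 < L := by linarith
  have hT0 : 0 < T := by rw [hT]; exact lt_max_of_lt_right hL0
  have hμ0 : 0 < μ := by rw [hμ]; positivity
  have hκ0 : 0 < κ := by rw [hκ]; positivity
  have hμκ : μ * κ = 7 * L := by rw [hμ, hκ]; field_simp
  have hsL : 0 ≤ √L := sqrt_nonneg _
  have hst : 0 ≤ √t := sqrt_nonneg _
  have hlog : 0 ≤ log (1 + L) := log_nonneg (by linarith)
  have hsT : √T ≤ √t + √L := by
    rw [hT]
    rcases le_total t L with h | h
    · rw [max_eq_right h]; linarith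
    · rw [max_eq_left h]; linarith
  have h1 : lg (μ * 2 ^ K) ≤ 3 * (1 + log (1 + L)) := by
    have h2 : lg (μ * 2 ^ K) ≤ lg (8 * (1 + L)) := by
      apply lg_mono (by positivity)
      calc μ * 2 ^ K ≤ μ * κ := mul_le_mul_of_nonneg_left hK hμ0.le
        _ = 7 * L := hμκ
        _ ≤ 8 * (1 + L) := by linarith
    refine h2.trans ?_
    unfold lg
    rw [max_le_iff]
    refine ⟨by positivity, ?_⟩
    rw [logb, div_le_iff₀ (by linarith), log_mul (by norm_num) (by linarith),
      show (8 : ℝ) = 2 ^ 3 by norm_num, log_pow]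
    push_cast
    nlinarith
  have h3 : √κ * √(2 * μ) = √14 * √L := by
    rw [← sqrt_mul hκ0.le, ← sqrt_mul (by norm_num)]
    congr 1
    calc κ * (2 * μ) = 2 * (μ * κ) := by ring
      _ = 14 * L := by rw [hμκ]; ring
  have h14 : √14 ≤ 375 / 100 := by
    rw [sqrt_le_left (by norm_num)]; norm_num
  have h7 : √κ ≤ 265 / 100 * √T := by
    rw [hκ, sqrt_mul (by norm_num)]
    apply mul_le_mul_of_nonneg_right _ (sqrt_nonneg _)
    rw [sqrt_le_left (by norm_num)]; norm_num
  have h14' : 0 ≤ √14 := sqrt_nonneg _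
  calc 8 * √κ * (7 + √(2 * μ) * lg (μ * 2 ^ K))
      = 56 * √κ + 8 * (√κ * √(2 * μ)) * lg (μ * 2 ^ K) := by ring
    _ = 56 * √κ + 8 * (√14 * √L) * lg (μ * 2 ^ K) := by rw [h3]
    _ ≤ 56 * (265 / 100 * (√t + √L)) + 8 * (375 / 100 * √L) * (3 * (1 + log (1 + L))) := by
        apply add_le_add
        · apply mul_le_mul_of_nonneg_left _ (by norm_num)
          exact h7.trans (mul_le_mul_of_nonneg_left hsT (by norm_num))
        · apply mul_le_mul _ h1 (lg_nonneg _) (by positivity)
          apply mul_le_mul_of_nonneg_left _ (by norm_num)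
          exact mul_le_mul_of_nonneg_right h14 hsL
    _ ≤ _ := by nlinarith [mul_nonneg hsL hlog]

variable {V J : Type*} [Fintype V] [Fintype J]

/-- set systems, any starting point -/
theorem set_system (S : J → Finset V) (t : ℕ)
    (ht : ∀ i : V, (Finset.univ.filter fun j => i ∈ S j).card ≤ t) (z : V → ℝ)
    (hz : ∀ i, |z i| ≤ 1) :
    ∃ χ : V → ℤ, (∀ i, χ i = 1 ∨ χ i = -1) ∧ ∀ j, |∑ i ∈ S j, ((χ i : ℝ) - z i)|
      ≤ 240 * (√t + √(log (2 * Fintype.card V)) * (1 + log (1 + log (2 * Fintype.card V)))) := by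
  rcases isEmpty_or_nonempty V with hV | hV
  · refine ⟨fun _ => 1, fun i => Or.inl rfl, fun j => ?_⟩
    have h0 : Fintype.card V = 0 := Fintype.card_eq_zero
    have hS : S j = ∅ := Finset.eq_empty_of_isEmpty _
    rw [hS, h0]
    simp
  set N : ℝ := (Fintype.card V : ℝ) with hN
  have hN1 : 1 ≤ N := by
    rw [hN]; exact_mod_cast Fintype.card_pos
  set L : ℝ := log (2 * N) with hL
  have hL2 : log 2 ≤ L := log_le_log (by norm_num) (by linarith)
  have hl2 := Real.log_two_gt_d9
  have hL0 : 0 < L := by linarith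
  set T : ℝ := max (t : ℝ) L with hT
  have hT0 : 0 < T := lt_max_of_lt_right hL0
  have htT : (t : ℝ) ≤ T := le_max_left _ _
  have hLT : L ≤ T := le_max_right _ _
  set μ : ℝ := L / T with hμ
  have hμ0 : 0 < μ := by positivity
  have hμ1 : μ ≤ 1 := by rw [hμ, div_le_one hT0]; exact hLT
  have hμT : μ * T = L := by rw [hμ]; field_simp
  set κ : ℝ := 7 * T with hκ
  have hκ0 : 0 < κ := by positivity
  have hκ1 : 1 ≤ κ := by linarith
  have hμκ : μ * κ = 7 * L := by
    calc μ * κ = 7 * (μ * T) := by rw [hκ]; ring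
      _ = 7 * L := by rw [hμT]
  obtain ⟨K, hK1, hK2⟩ := exists_nat_pow_near hκ1 (show (1 : ℝ) < 2 by norm_num)
  set c : J → V → ℝ := fun j i => if i ∈ S j then 1 else 0 with hc
  have hc2 : ∀ j i, c j i ^ 2 = c j i := by
    intro j i
    simp only [hc]
    split_ifs <;> norm_num
  have hcol : ∀ i, ∑ j, c j i ≤ t := by
    intro i
    have : ∑ j, c j i = ((Finset.univ.filter fun j => i ∈ S j).card : ℝ) := by
      simp [hc]
    rw [this]
    exact_mod_cast ht i
  obtain ⟨y, l, y1, -, y3, -, y5, y6⟩ := adaptive (X := V) c hκ0 hμ0.le hμ1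
    (a := fun i j => c j i) (om := fun _ => exp (-(μ * κ)))
    (fun i j => by simp only [hc]; split_ifs <;> norm_num)
    (fun i j => by simp only [hc]; split_ifs <;> norm_num)
    (fun _ => (exp_pos _).le) K (by
      calc ∑ i : V, exp (-(μ * κ)) * exp (6 * μ * ∑ j, c j i)
          ≤ ∑ _i : V, exp (-L) := by
            refine Finset.sum_le_sum fun i _ => ?_
            rw [← exp_add]
            apply exp_le_exp.2
            have h1 : μ * ∑ j, c j i ≤ L := by
              calc μ * ∑ j, c j i ≤ μ * T :=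
                    mul_le_mul_of_nonneg_left ((hcol i).trans htT) hμ0.le
                _ = L := hμT
            rw [hμκ]
            linarith
        _ = N * exp (-L) := by simp [hN]
        _ = 1 / 2 := by
            rw [exp_neg, hL, exp_log (by linarith)]
            field_simp
        _ < 1 := by norm_num) hz
  have hload : ∀ i, load c l i < κ := by
    intro i
    have h1 := y5 i
    rw [← exp_add, exp_lt_one_iff] at h1
    have h2 : μ * ∑ j, 2 ^ l j * c j i < μ * κ := by linarith
    have h3 := lt_of_mul_lt_mul_left h2 hμ0.le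
    unfold load
    simp only [hc2]
    exact h3
  have hy : ∀ i, |y i| = 1 := by
    intro i
    by_contra hne
    have hlt : |y i| < 1 := lt_of_le_of_ne (y1 i) hne
    rcases y3 i hlt with h1 | ⟨j, hj1, hj2⟩
    · exact absurd h1 (not_lt.2 (hload i).le)
    · have h2 : (2 : ℝ) ^ l j * c j i ^ 2 ≤ load c l i := by
        unfold load
        exact Finset.single_le_sum (f := fun j => (2 : ℝ) ^ l j * c j i ^ 2)
          (fun k _ => by positivity) (Finset.mem_univ j)
      have h3 : c j i = 1 := by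
        simp only [hc] at hj1 ⊢
        split_ifs at hj1 ⊢ with h
        · rfl
        · exact absurd rfl hj1
      rw [h3, hj2, one_pow, mul_one] at h2
      have := hload i
      linarith
  refine ⟨fun i => if y i = 1 then 1 else -1, fun i => ?_, fun j => ?_⟩
  · by_cases h : y i = 1
    · left; simp [h]
    · right; simp [h]
  · have e1 : ∀ i, (((if y i = 1 then 1 else -1 : ℤ)) : ℝ) = y i := by
      intro i
      rcases eq_or_ne (y i) 1 with h | h
      · simp [h]
      · have h1 := hy i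
        have h2 : y i = -1 := by
          rcases abs_eq (zero_le_one) |>.1 h1 with h3 | h3
          · exact absurd h3 h
          · exact h3
        rw [h2]; norm_num
    have e2 : ∑ i ∈ S j, ((((if y i = 1 then 1 else -1 : ℤ)) : ℝ) - z i)
        = rs c y j - rs c z j := by
      simp only [e1]
      rw [← rs_sub]
      unfold rs
      simp only [hc, ite_mul, one_mul, zero_mul]
      rw [← Finset.sum_filter]
      congr 1
      ext i; simp
    rw [e2]
    refine (y6 j).trans ((Hs_le hκ0 hμ0.le hμ1 K).trans ?_)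
    exact final_num (by positivity) hL2 hT hμ hκ hK1

end Pool.Agent.Helper22.LT
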