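import Pool.Agent.Helper22.LT.Phase

namespace Pool.Agent.Helper22.LT

open Real Pool.Agent.Helper26.Gsw
open scoped RealInnerProductSpace Classical

variable {V J : Type*} [Fintype V] [Fintype J]

/-- row sum -/
def rs (c : J → V → ℝ) (x : V → ℝ) (j : J) : ℝ := ∑ i, c j i * x i

theorem rs_sub (c : J → V → ℝ) (x y : V → ℝ) (j : J) :
    rs c (fun i => y i - x i) j = rs c y j - rs c x j := by
  unfold rs
  rw [← Finset.sum_sub_distrib]
  exact Finset.sum_congr rfl fun i _ => by ring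

/-- weighted columns -/
noncomputable def bv (c : J → V → ℝ) (κ : ℝ) (l : J → ℕ) (i : V) : EuclideanSpace ℝ J :=
  WithLp.toLp 2 (fun j => √(2 ^ l j / κ) * c j i)

/-- dual vector -/
noncomputable def th (κ : ℝ) (l : J → ℕ) (lam : J → ℝ) : EuclideanSpace ℝ J :=
  WithLp.toLp 2 (fun j => lam j * √(κ / 2 ^ l j))

theorem comb_apply (c : J → V → ℝ) (κ : ℝ) (l : J → ℕ) (u : V → ℝ) (j : J) :
    (∑ i, u i • bv c κ l i) j = √(2 ^ l j / κ) * rs c u j := by
  simp only [bv, rs, WithLp.ofLp_sum, WithLp.ofLp_smul, Finset.sum_apply, Pi.smul_apply,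
    smul_eq_mul]
  rw [Finset.mul_sum]
  exact Finset.sum_congr rfl fun i _ => by ring

theorem inner_th (c : J → V → ℝ) {κ : ℝ} (hκ : 0 < κ) (l : J → ℕ) (lam : J → ℝ) (u : V → ℝ) :
    ⟪th κ l lam, ∑ i, u i • bv c κ l i⟫ = ∑ j, lam j * rs c u j := by
  rw [PiLp.inner_apply]
  refine Finset.sum_congr rfl fun j _ => ?_
  rw [comb_apply]
  simp only [th, RCLike.inner_apply, conj_trivial]
  have h1 : √(κ / 2 ^ l j) * √(2 ^ l j / κ) = 1 := by
    rw [← Real.sqrt_mul (by positivity)]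
    have : κ / 2 ^ l j * (2 ^ l j / κ) = 1 := by field_simp
    rw [this, Real.sqrt_one]
  calc √(2 ^ l j / κ) * rs c u j * (lam j * √(κ / 2 ^ l j))
      = lam j * rs c u j * (√(κ / 2 ^ l j) * √(2 ^ l j / κ)) := by ring
    _ = _ := by rw [h1, mul_one]

theorem normsq_comb (c : J → V → ℝ) {κ : ℝ} (hκ : 0 < κ) (l : J → ℕ) (u : V → ℝ) :
    ‖∑ i, u i • bv c κ l i‖ ^ 2 = ∑ j, 2 ^ l j / κ * rs c u j ^ 2 := by
  rw [EuclideanSpace.norm_sq_eq]
  refine Finset.sum_congr rfl fun j _ => ?_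
  rw [comb_apply, Real.norm_eq_abs, sq_abs, mul_pow, Real.sq_sqrt (by positivity)]

theorem normsq_bv (c : J → V → ℝ) {κ : ℝ} (hκ : 0 < κ) (l : J → ℕ) (i : V) :
    ‖bv c κ l i‖ ^ 2 = ∑ j, 2 ^ l j / κ * c j i ^ 2 := by
  rw [EuclideanSpace.norm_sq_eq]
  refine Finset.sum_congr rfl fun j _ => ?_
  simp only [bv]
  rw [Real.norm_eq_abs, sq_abs, mul_pow, Real.sq_sqrt (by positivity)]

theorem normsq_th {κ : ℝ} (hκ : 0 < κ) (l : J → ℕ) (lam : J → ℝ) :
    ‖th κ l lam‖ ^ 2 = ∑ j, κ * lam j ^ 2 / 2 ^ l j := by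
  rw [EuclideanSpace.norm_sq_eq]
  refine Finset.sum_congr rfl fun j _ => ?_
  simp only [th]
  rw [Real.norm_eq_abs, sq_abs, mul_pow, Real.sq_sqrt (by positivity)]
  ring

/-- the variance functional -/
noncomputable def JJ (c : J → V → ℝ) (κ : ℝ) (A : Finset V) (l : J → ℕ) (lam : J → ℝ) : ℝ :=
  ‖(Sp (bv c κ l) A).starProjection (th κ l lam)‖ ^ 2

theorem JJ_nonneg (c : J → V → ℝ) (κ : ℝ) (A : Finset V) (l : J → ℕ) (lam : J → ℝ) :
    0 ≤ JJ c κ A l lam := sq_nonneg _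

theorem JJ_le (c : J → V → ℝ) {κ : ℝ} (hκ : 0 < κ) (A : Finset V) (l : J → ℕ) (lam : J → ℝ) :
    JJ c κ A l lam ≤ ∑ j, κ * lam j ^ 2 / 2 ^ l j := by
  rw [← normsq_th hκ]
  exact pow_le_pow_left₀ (norm_nonneg _)
    (Submodule.norm_starProjection_apply_le (Sp (bv c κ l) A) (th κ l lam)) 2

theorem JJ_ge (c : J → V → ℝ) {κ : ℝ} (hκ : 0 < κ) (A : Finset V) (l : J → ℕ) (lam : J → ℝ)
    {u : V → ℝ} (hu : ∀ i, i ∉ A → u i = 0) :
    ∑ j, (2 * lam j * rs c u j - 2 ^ l j / κ * rs c u j ^ 2) ≤ JJ c κ A l lam := by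
  set h := ∑ i, u i • bv c κ l i with hh
  set W := Sp (bv c κ l) A with hW
  set θ := th κ l lam with hθ
  have hmem : h ∈ W := by
    refine W.sum_mem fun i _ => ?_
    by_cases hi : i ∈ A
    · exact W.smul_mem _ (mem_Sp _ hi)
    · rw [hu i hi, zero_smul]; exact W.zero_mem
  have h1 : ⟪W.starProjection θ, h⟫ = ⟪θ, h⟫ := by
    have := W.starProjection_inner_eq_zero θ h hmem
    rw [inner_sub_left] at this
    linarith
  have h2 : 0 ≤ ‖W.starProjection θ - h‖ ^ 2 := sq_nonneg _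
  rw [← real_inner_self_eq_norm_sq, inner_sub_left, inner_sub_right, inner_sub_right,
    real_inner_comm (W.starProjection θ) h, h1, real_inner_self_eq_norm_sq,
    real_inner_self_eq_norm_sq] at h2
  have h3 : ⟪θ, h⟫ = ∑ j, lam j * rs c u j := inner_th c hκ l lam u
  have h4 : ‖h‖ ^ 2 = ∑ j, 2 ^ l j / κ * rs c u j ^ 2 := normsq_comb c hκ l u
  have h5 : ∑ j, (2 * lam j * rs c u j - 2 ^ l j / κ * rs c u j ^ 2) = 2 * ⟪θ, h⟫ - ‖h‖ ^ 2 := by
    rw [h3, h4, Finset.sum_sub_distrib, Finset.mul_sum]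
    congr 1
    exact Finset.sum_congr rfl fun j _ => by ring
  rw [h5]
  unfold JJ
  linarith

theorem JJ_eq (c : J → V → ℝ) {κ : ℝ} (hκ : 0 < κ) (A : Finset V) (l : J → ℕ) (lam : J → ℝ) :
    ∃ u : V → ℝ, (∀ i, i ∉ A → u i = 0) ∧
      JJ c κ A l lam = ∑ j, (2 * lam j * rs c u j - 2 ^ l j / κ * rs c u j ^ 2) := by
  set W := Sp (bv c κ l) A with hW
  set θ := th κ l lam with hθ
  have hPU : W.starProjection θ ∈ Submodule.span ℝ (bv c κ l '' (A : Set V)) :=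
    W.starProjection_apply_mem θ
  rw [Submodule.mem_span_image_finset_iff_exists_fun'] at hPU
  obtain ⟨g, hg⟩ := hPU
  set u : V → ℝ := fun i => if i ∈ A then g i else 0 with hu
  refine ⟨u, fun i hi => by simp [hu, hi], ?_⟩
  have hh : ∑ i, u i • bv c κ l i = W.starProjection θ := by
    rw [← hg]
    simp only [hu, ite_smul, zero_smul]
    rw [← Finset.sum_filter]
    congr 1
    ext i; simp
  have h3 : ⟪θ, ∑ i, u i • bv c κ l i⟫ = ∑ j, lam j * rs c u j := inner_th c hκ l lam u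
  have h4 : ‖∑ i, u i • bv c κ l i‖ ^ 2 = ∑ j, 2 ^ l j / κ * rs c u j ^ 2 := normsq_comb c hκ l u
  rw [hh] at h3 h4
  have h5 : ⟪θ, W.starProjection θ⟫ = ‖W.starProjection θ‖ ^ 2 := by
    rw [inner_proj, real_inner_self_eq_norm_sq]
  rw [Finset.sum_sub_distrib]
  have h6 : ∑ j, 2 * lam j * rs c u j = 2 * ∑ j, lam j * rs c u j := by
    rw [Finset.mul_sum]
    exact Finset.sum_congr rfl fun j _ => by ring
  rw [h6, ← h3, ← h4, h5]
  unfold JJ
  ring

theorem JJ_mono (c : J → V → ℝ) (κ : ℝ) {A A' : Finset V} (h : A' ⊆ A) (l : J → ℕ) (lam : J → ℝ) :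
    JJ c κ A' l lam ≤ JJ c κ A l lam := proj_mono (Sp_mono _ h) _

theorem JJ_level (c : J → V → ℝ) {κ : ℝ} (hκ : 0 < κ) (A : Finset V) (l : J → ℕ) (lam : J → ℝ)
    (S : J) (r : ℝ) :
    JJ c κ A (Function.update l S (l S + 1)) (Function.update lam S r)
      ≤ JJ c κ A l lam + κ * (r - lam S) ^ 2 / 2 ^ l S := by
  obtain ⟨u, hu, he⟩ := JJ_eq c hκ A (Function.update l S (l S + 1)) (Function.update lam S r)
  have hge := JJ_ge c hκ A l lam hu
  rw [he]
  refine le_trans ?_ (add_le_add_left hge _)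
  have hsum : κ * (r - lam S) ^ 2 / 2 ^ l S
      = ∑ j, if j = S then κ * (r - lam S) ^ 2 / 2 ^ l S else 0 := by simp
  rw [hsum, ← Finset.sum_add_distrib]
  refine Finset.sum_le_sum fun j _ => ?_
  by_cases hj : j = S
  · subst hj
    simp only [Function.update_self, if_true]
    have hp : (0 : ℝ) < 2 ^ l j := by positivity
    set y := rs c u j
    set P : ℝ := 2 ^ l j with hP
    have e1 : (2 : ℝ) ^ (l j + 1) = 2 * P := by rw [hP]; ring
    rw [e1]
    have key : 0 ≤ P / κ * (y - κ * (r - lam j) / P) ^ 2 := by positivity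
    have e2 : P / κ * (y - κ * (r - lam j) / P) ^ 2
        = P / κ * y ^ 2 - 2 * (r - lam j) * y + κ * (r - lam j) ^ 2 / P := by
      field_simp
      ring
    rw [e2] at key
    have e3 : 2 * P / κ * y ^ 2 = 2 * (P / κ * y ^ 2) := by ring
    rw [e3]
    linarith
  · simp only [Function.update_of_ne hj, if_neg hj, add_zero]
    exact le_refl _

end Pool.Agent.Helper22.LT
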