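import Pool.Agent.Helper22.LT.Pot

namespace Pool.Agent.Helper22.LT

open Real Pool.Agent.Helper26.Gsw
open scoped RealInnerProductSpace Classical

variable {V J : Type*} [Fintype V] [Fintype J]

/-- scalar inequality of a level change -/
theorem level_scalar {κ μ : ℝ} (hκ : 0 < κ) (hμ : 0 ≤ μ) (l : ℕ) {a : ℝ} (ha : 0 ≤ a)
    (ha1 : a ≤ 1) :
    2 * gc μ a (l + 1) 1 * exp (κ * (ell κ μ (l + 1) + ell κ μ l) ^ 2 / 2 ^ l / 2)
      ≤ gc μ a l 1 * exp (ell κ μ l * dl κ μ l) := by
  rw [gc_one, gc_one, ell_dl hκ hμ]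
  set z := μ * 2 ^ l with hz
  have hz0 : 0 ≤ z := by positivity
  have e1 : μ * 2 ^ (l + 1) * a = 2 * (z * a) := by rw [hz]; ring
  have e2 : exp (2 * (z * a)) = exp (z * a) ^ 2 := by
    rw [← exp_nat_mul]; norm_num
  rw [e1, e2]
  have hza : z * a ≤ z := by nlinarith
  have h1 : 1 ≤ exp (z * a) := one_le_exp (mul_nonneg hz0 ha)
  have h2 : exp (z * a) ≤ exp z := exp_le_exp.2 hza
  have h0 : 1 ≤ exp z := one_le_exp hz0
  have hp : (0 : ℝ) < 2 ^ l := by positivity
  have h3 : κ * (ell κ μ (l + 1) + ell κ μ l) ^ 2 / 2 ^ l / 2 ≤ 9 / 2 * (1 + z) := by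
    have g1 := ell_sq hκ hμ l
    have g2 := ell_succ hκ hμ l
    have g3 := ell_nonneg κ μ l
    have g4 := ell_nonneg κ μ (l + 1)
    have g5 : (ell κ μ (l + 1) + ell κ μ l) ^ 2 ≤ 9 * ell κ μ l ^ 2 := by nlinarith
    have g6 : κ * (ell κ μ (l + 1) + ell κ μ l) ^ 2 ≤ 9 * (2 ^ l * (1 + z)) := by
      calc κ * (ell κ μ (l + 1) + ell κ μ l) ^ 2 ≤ κ * (9 * ell κ μ l ^ 2) :=
            mul_le_mul_of_nonneg_left g5 hκ.le
        _ = 9 * (κ * ell κ μ l ^ 2) := by ring
        _ = _ := by rw [g1]
    rw [div_div, div_le_iff₀ (by positivity)]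
    nlinarith
  have h4 : exp (κ * (ell κ μ (l + 1) + ell κ μ l) ^ 2 / 2 ^ l / 2) ≤ exp (9 / 2 * (1 + z)) :=
    exp_le_exp.2 h3
  have h5 : (4 : ℝ) ≤ exp (3 / 2) := by
    have h6 : exp (3 / 2) = exp 1 * exp (1 / 2) := by rw [← exp_add]; norm_num
    have h7 := Real.exp_one_gt_d9
    have h8 : (1 / 2 : ℝ) + 1 ≤ exp (1 / 2) := add_one_le_exp _
    rw [h6]
    nlinarith
  have h9 : 4 * exp z * exp (9 / 2 * (1 + z)) ≤ exp (6 * (1 + z)) := by
    calc 4 * exp z * exp (9 / 2 * (1 + z)) ≤ exp (3 / 2) * exp z * exp (9 / 2 * (1 + z)) := by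
          apply mul_le_mul_of_nonneg_right _ (exp_pos _).le
          exact mul_le_mul_of_nonneg_right h5 (exp_pos _).le
      _ = exp (3 / 2 + z + 9 / 2 * (1 + z)) := by rw [← exp_add, ← exp_add]
      _ ≤ _ := exp_le_exp.2 (by linarith)
  set A := exp (z * a) with hA
  have h10 : 2 * ((A ^ 2 - 1) / 2) * exp (κ * (ell κ μ (l + 1) + ell κ μ l) ^ 2 / 2 ^ l / 2)
      ≤ (A ^ 2 - 1) * exp (9 / 2 * (1 + z)) := by
    have : 0 ≤ A ^ 2 - 1 := by nlinarith
    calc _ = (A ^ 2 - 1) * exp (κ * (ell κ μ (l + 1) + ell κ μ l) ^ 2 / 2 ^ l / 2) := by ring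
      _ ≤ _ := mul_le_mul_of_nonneg_left h4 this
  refine h10.trans ?_
  have h11 : (A + 1) * exp (9 / 2 * (1 + z)) ≤ 1 / 2 * exp (6 * (1 + z)) := by
    have : (A + 1) * exp (9 / 2 * (1 + z)) ≤ (2 * exp z) * exp (9 / 2 * (1 + z)) :=
      mul_le_mul_of_nonneg_right (by linarith) (exp_pos _).le
    linarith
  have h12 : 0 ≤ A - 1 := by linarith
  calc (A ^ 2 - 1) * exp (9 / 2 * (1 + z)) = (A - 1) * ((A + 1) * exp (9 / 2 * (1 + z))) := by ring
    _ ≤ (A - 1) * (1 / 2 * exp (6 * (1 + z))) := mul_le_mul_of_nonneg_left h11 h12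
    _ = _ := by ring

theorem P_level (c : J → V → ℝ) {κ μ : ℝ} (hκ : 0 < κ) (hμ : 0 ≤ μ) {a : J → ℝ}
    (ha : ∀ j, 0 ≤ a j) (ha1 : ∀ j, a j ≤ 1) (A : Finset V) (x : V → ℝ) (l : J → ℕ) (h : J → ℝ) (S : J)
    (hS : dl κ μ (l S) ≤ |rs c x S - h S|) :
    P c κ μ a A x (Function.update l S (l S + 1)) (Function.update h S (rs c x S))
      ≤ P c κ μ a A x l h := by
  have h3 : (3 : ℝ) * P c κ μ a A x (Function.update l S (l S + 1)) (Function.update h S (rs c x S))
      ≤ 3 * P c κ μ a A x l h := by
    unfold P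
    rw [← sum_update _ S, ← sum_update _ S]
    refine Finset.sum_le_sum fun σ _ => ?_
    set R := ∏ j ∈ Finset.univ.erase S, gc μ (a j) (l j) (σ j) with hR
    set Q := ∑ j ∈ Finset.univ.erase S, sgn (σ j) * ell κ μ (l j) * (rs c x j - h j) with hQ
    have hR0 : 0 ≤ R := Finset.prod_nonneg fun j _ => gc_nonneg hμ (ha j) _ _
    set lam : J → ℝ := fun j => sgn (σ j) * ell κ μ (l j) with hlam
    set D := rs c x S - h S with hD
    -- old terms
    have eold : ∀ s : Fin 3, F c κ μ a A x l h (Function.update σ S s)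
        = R * (gc μ (a S) (l S) s * exp (sgn s * ell κ μ (l S) * D) *
            exp (Q + JJ c κ A l (Function.update lam S (sgn s * ell κ μ (l S))) / 2)) := by
      intro s
      have e1 : ∏ j, gc μ (a j) (l j) (Function.update σ S s j) = gc μ (a S) (l S) s * R := by
        rw [← Finset.mul_prod_erase Finset.univ _ (Finset.mem_univ S), Function.update_self]
        congr 1
        refine Finset.prod_congr rfl fun j hj => ?_
        rw [Function.update_of_ne (Finset.ne_of_mem_erase hj)]
      have e2 : ∑ j, sgn (Function.update σ S s j) * ell κ μ (l j) * (rs c x j - h j)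
          = sgn s * ell κ μ (l S) * D + Q := by
        rw [← Finset.add_sum_erase Finset.univ _ (Finset.mem_univ S), Function.update_self]
        congr 1
        refine Finset.sum_congr rfl fun j hj => ?_
        rw [Function.update_of_ne (Finset.ne_of_mem_erase hj)]
      have e3 : (fun j => sgn (Function.update σ S s j) * ell κ μ (l j))
          = Function.update lam S (sgn s * ell κ μ (l S)) := by
        funext j
        by_cases hj : j = S
        · subst hj; simp
        · simp [Function.update_of_ne hj, hlam]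
      unfold F
      rw [e1, e2, e3, add_assoc, exp_add]
      ring
    have enew : ∀ s : Fin 3, F c κ μ a A x (Function.update l S (l S + 1))
          (Function.update h S (rs c x S)) (Function.update σ S s)
        = R * (gc μ (a S) (l S + 1) s *
            exp (Q + JJ c κ A (Function.update l S (l S + 1))
              (Function.update lam S (sgn s * ell κ μ (l S + 1))) / 2)) := by
      intro s
      have e1 : ∏ j, gc μ (a j) (Function.update l S (l S + 1) j) (Function.update σ S s j)
          = gc μ (a S) (l S + 1) s * R := by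
        rw [← Finset.mul_prod_erase Finset.univ _ (Finset.mem_univ S), Function.update_self,
          Function.update_self]
        congr 1
        refine Finset.prod_congr rfl fun j hj => ?_
        rw [Function.update_of_ne (Finset.ne_of_mem_erase hj),
          Function.update_of_ne (Finset.ne_of_mem_erase hj)]
      have e2 : ∑ j, sgn (Function.update σ S s j) * ell κ μ (Function.update l S (l S + 1) j)
            * (rs c x j - Function.update h S (rs c x S) j) = Q := by
        rw [← Finset.add_sum_erase Finset.univ _ (Finset.mem_univ S), Function.update_self,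
          Function.update_self, Function.update_self, sub_self, mul_zero, zero_add]
        refine Finset.sum_congr rfl fun j hj => ?_
        rw [Function.update_of_ne (Finset.ne_of_mem_erase hj),
          Function.update_of_ne (Finset.ne_of_mem_erase hj),
          Function.update_of_ne (Finset.ne_of_mem_erase hj)]
      have e3 : (fun j => sgn (Function.update σ S s j) * ell κ μ (Function.update l S (l S + 1) j))
          = Function.update lam S (sgn s * ell κ μ (l S + 1)) := by
        funext j
        by_cases hj : j = S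
        · subst hj; simp
        · simp [Function.update_of_ne hj, hlam]
      unfold F
      rw [e1, e2, e3]
      ring
    -- comparison of the variance terms
    have hJJ : ∀ s s' : Fin 3, JJ c κ A (Function.update l S (l S + 1))
          (Function.update lam S (sgn s * ell κ μ (l S + 1)))
        ≤ JJ c κ A l (Function.update lam S (sgn s' * ell κ μ (l S)))
          + κ * (sgn s * ell κ μ (l S + 1) - sgn s' * ell κ μ (l S)) ^ 2 / 2 ^ l S := by
      intro s s'
      have := JJ_level c hκ A l (Function.update lam S (sgn s' * ell κ μ (l S))) S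
        (sgn s * ell κ μ (l S + 1))
      rw [Function.update_idem, Function.update_self] at this
      exact this
    simp only [eold, enew]
    rw [← Finset.mul_sum, ← Finset.mul_sum]
    refine mul_le_mul_of_nonneg_left ?_ hR0
    rw [Fin.sum_univ_three, Fin.sum_univ_three]
    rw [gc_zero, gc_zero, gc_two, gc_two, ← gc_one, ← gc_one]
    set g' := gc μ (a S) (l S + 1) 1 with hg'
    set g := gc μ (a S) (l S) 1 with hg
    have hg0 : 0 ≤ g := gc_nonneg hμ (ha S) _ _
    have hg0' : 0 ≤ g' := gc_nonneg hμ (ha S) _ _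
    set ep := ell κ μ (l S) with hep
    set ep' := ell κ μ (l S + 1) with hep'
    have hep0 : 0 ≤ ep := ell_nonneg _ _ _
    have hep0' : 0 ≤ ep' := ell_nonneg _ _ _
    set X : Fin 3 → ℝ := fun s => exp (Q + JJ c κ A l (Function.update lam S (sgn s * ep)) / 2)
      with hX
    set X' : Fin 3 → ℝ := fun s => exp (Q + JJ c κ A (Function.update l S (l S + 1))
              (Function.update lam S (sgn s * ep')) / 2) with hX'
    set B := exp (κ * (ep' + ep) ^ 2 / 2 ^ l S / 2) with hB
    have hsc : 2 * g' * B ≤ g * exp (ep * dl κ μ (l S)) := level_scalar hκ hμ (l S) (ha S) (ha1 S)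
    have hX0 : X' 0 ≤ X 0 := by
      apply exp_le_exp.2
      have := hJJ 0 0
      rw [sgn_zero, zero_mul, zero_mul, sub_zero] at this
      have e : κ * (0 : ℝ) ^ 2 / 2 ^ l S = 0 := by ring
      rw [e] at this
      simp only [sgn_zero, zero_mul]
      linarith
    have hs1 : ∀ s : Fin 3, |sgn s| ≤ 1 := by
      intro s
      unfold sgn
      split_ifs <;> simp
    have hXs : ∀ s s' : Fin 3, X' s ≤ B * X s' := by
      intro s s'
      rw [hB, hX, hX']
      simp only
      rw [← exp_add]
      apply exp_le_exp.2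
      have h1 := hJJ s s'
      have h2 : (sgn s * ep' - sgn s' * ep) ^ 2 ≤ (ep' + ep) ^ 2 := by
        apply sq_le_sq'
        · have a1 := abs_le.1 (hs1 s)
          have a2 := abs_le.1 (hs1 s')
          nlinarith [a1.1, a1.2, a2.1, a2.2]
        · have a1 := abs_le.1 (hs1 s)
          have a2 := abs_le.1 (hs1 s')
          nlinarith [a1.1, a1.2, a2.1, a2.2]
      have h4 : κ * (sgn s * ep' - sgn s' * ep) ^ 2 / 2 ^ l S ≤ κ * (ep' + ep) ^ 2 / 2 ^ l S := by
        apply div_le_div_of_nonneg_right _ (by positivity)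
        exact mul_le_mul_of_nonneg_left h2 hκ.le
      linarith
    have hXpos : ∀ s, 0 < X s := fun s => exp_pos _
    have main : ∀ s' : Fin 3, (s' = 1 ∨ s' = 2) → |D| = sgn s' * D →
        g' * X' 1 + g' * X' 2 ≤ g * exp (sgn s' * ep * D) * X s' := by
      intro s' _ hDs
      have h1 := hXs 1 s'
      have h2 := hXs 2 s'
      have h4 : g' * X' 1 + g' * X' 2 ≤ (2 * g' * B) * X s' := by nlinarith
      refine h4.trans ?_
      refine (mul_le_mul_of_nonneg_right hsc (hXpos s').le).trans ?_
      refine mul_le_mul_of_nonneg_right ?_ (hXpos s').le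
      refine mul_le_mul_of_nonneg_left ?_ hg0
      apply exp_le_exp.2
      have e : sgn s' * ep * D = ep * |D| := by rw [hDs]; ring
      rw [e]
      exact mul_le_mul_of_nonneg_left hS hep0
    have e10 : exp (sgn 0 * ep * D) = 1 := by rw [sgn_zero]; simp
    rw [e10]
    rcases le_total 0 D with hD0 | hD0
    · have h1 := main 1 (Or.inl rfl) (by rw [sgn_one, abs_of_nonneg hD0, one_mul])
      have h2 : 0 ≤ g * exp (sgn 2 * ep * D) * X 2 := by
        have := hXpos 2
        positivity
      have h5 : (1 : ℝ) * X' 0 + g' * X' 1 + g' * X' 2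
        ≤ 1 * 1 * X 0 + g * exp (sgn 1 * ep * D) * X 1 + g * exp (sgn 2 * ep * D) * X 2 := by
        linarith
      exact h5
    · have h1 := main 2 (Or.inr rfl) (by rw [sgn_two, abs_of_nonpos hD0]; ring)
      have h2 : 0 ≤ g * exp (sgn 1 * ep * D) * X 1 := by
        have := hXpos 1
        positivity
      have h5 : (1 : ℝ) * X' 0 + g' * X' 1 + g' * X' 2
        ≤ 1 * 1 * X 0 + g * exp (sgn 1 * ep * D) * X 1 + g * exp (sgn 2 * ep * D) * X 2 := by
        linarith
      exact h5
  linarith

end Pool.Agent.Helper22.LT
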