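import Pool.Agent.Helper22.LT.Level

namespace Pool.Agent.Helper22.LT

open Real Pool.Agent.Helper26.Gsw
open scoped RealInnerProductSpace Classical

variable {V J X : Type*} [Fintype V] [Fintype J] [Fintype X]

theorem F_tf (c : J → V → ℝ) {κ : ℝ} (hκ : 0 < κ) (μ : ℝ) (a : J → ℝ) (W : Finset V)
    (x y : V → ℝ) (l : J → ℕ) (h : J → ℝ) (σ : J → Fin 3) :
    F c κ μ a (Al W y) y l h σ = ((∏ j, gc μ (a j) (l j) (σ j)) *
      exp (∑ j, sgn (σ j) * ell κ μ (l j) * (rs c x j - h j))) *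
      tf W (bv c κ l) (th κ l (fun j => sgn (σ j) * ell κ μ (l j))) x y := by
  unfold F tf mom
  rw [inner_th c hκ]
  have e : ∑ j, sgn (σ j) * ell κ μ (l j) * (rs c y j - h j)
      = ∑ j, sgn (σ j) * ell κ μ (l j) * (rs c x j - h j)
        + ∑ j, sgn (σ j) * ell κ μ (l j) * rs c (fun i => y i - x i) j := by
    rw [← Finset.sum_add_distrib]
    refine Finset.sum_congr rfl fun j _ => ?_
    rw [rs_sub]
    ring
  rw [e, exp_add, exp_add]
  unfold JJ
  ring

theorem P_phase (c : J → V → ℝ) {κ μ : ℝ} (hκ : 0 < κ) (hμ : 0 ≤ μ) {a : X → J → ℝ}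
    (ha : ∀ t j, 0 ≤ a t j) {om : X → ℝ} (hom : ∀ t, 0 ≤ om t) {x : V → ℝ} (hx : ∀ i, |x i| ≤ 1)
    (l : J → ℕ) (h : J → ℝ) {W : Finset V} {p : V} (hp : p ∈ Al W x) (hbp : ‖bv c κ l p‖ ≤ 1)
    (hP : ∑ t, om t * P c κ μ (a t) (Al W x) x l h < 1) :
    ∃ y : V → ℝ, (∀ i, |y i| ≤ 1) ∧ (∀ i, i ∉ Al W x → y i = x i) ∧ Al W y ⊆ (Al W x).erase p ∧
      (∀ j, |rs c y j - rs c x j| ≤ dl κ μ (l j) / 3) ∧
      ∑ t, om t * P c κ μ (a t) (Al W y) y l h < 1 := by
  obtain ⟨E, hE, hb⟩ := phase_main (bv c κ l) p hbp hx hp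
  set co : X → (J → Fin 3) → ℝ := fun t σ => (∏ j, gc μ (a t j) (l j) (σ j)) *
      exp (∑ j, sgn (σ j) * ell κ μ (l j) * (rs c x j - h j)) with hco
  have hco0 : ∀ t σ, 0 ≤ co t σ := fun t σ =>
    mul_nonneg (Finset.prod_nonneg fun j _ => gc_nonneg hμ (ha t j) _ _) (exp_pos _).le
  set θ : (J → Fin 3) → EuclideanSpace ℝ J :=
    fun σ => th κ l (fun j => sgn (σ j) * ell κ μ (l j)) with hθ
  have hfun : (fun y => ∑ t, om t * P c κ μ (a t) (Al W y) y l h)
      = ∑ t, ∑ σ, (om t * co t σ) • tf W (bv c κ l) (θ σ) x := by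
    funext y
    simp only [Finset.sum_apply, Pi.smul_apply, smul_eq_mul]
    refine Finset.sum_congr rfl fun t _ => ?_
    unfold P
    rw [Finset.mul_sum]
    refine Finset.sum_congr rfl fun σ _ => ?_
    rw [F_tf c hκ μ (a t) W x y l h σ]
    simp only [hco, hθ]
    ring
  have hEf : E (fun y => ∑ t, om t * P c κ μ (a t) (Al W y) y l h) < 1 := by
    rw [hfun, map_sum]
    have h1 : ∑ t, E (∑ σ, (om t * co t σ) • tf W (bv c κ l) (θ σ) x)
        ≤ ∑ t, om t * P c κ μ (a t) (Al W x) x l h := by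
      refine Finset.sum_le_sum fun t _ => ?_
      rw [map_sum]
      unfold P
      rw [Finset.mul_sum]
      refine Finset.sum_le_sum fun σ _ => ?_
      rw [map_smul, smul_eq_mul]
      have h2 := mul_le_mul_of_nonneg_left (hb (θ σ)) (mul_nonneg (hom t) (hco0 t σ))
      refine h2.trans (le_of_eq ?_)
      unfold F JJ
      rw [exp_add]
      simp only [hco, hθ]
      ring
    exact h1.trans_lt hP
  obtain ⟨y, ⟨hy1, hy0, hy2, hy3⟩, hy4⟩ := hE.exists_lt hEf
  refine ⟨y, hy1, hy0, hy2, fun j => ?_, hy4⟩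
  have h1 : ‖∑ i, (y i - x i) • bv c κ l i‖ ^ 2 ≤ 4 := by
    nlinarith [norm_nonneg (∑ i, (y i - x i) • bv c κ l i)]
  rw [normsq_comb c hκ l (fun i => y i - x i)] at h1
  have h2 : 2 ^ l j / κ * rs c (fun i => y i - x i) j ^ 2 ≤ 4 := by
    refine le_trans ?_ h1
    exact Finset.single_le_sum (f := fun j => 2 ^ l j / κ * rs c (fun i => y i - x i) j ^ 2)
      (fun k _ => by positivity) (Finset.mem_univ j)
  rw [rs_sub] at h2
  have hp : (0 : ℝ) < 2 ^ l j := by positivity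
  have h3 := dl_sq_ge hκ hμ (l j)
  have h4 : (rs c y j - rs c x j) ^ 2 ≤ 4 * (κ / 2 ^ l j) := by
    have e : (rs c y j - rs c x j) ^ 2
        = (2 ^ l j / κ * (rs c y j - rs c x j) ^ 2) * (κ / 2 ^ l j) := by
      field_simp
    rw [e]
    exact mul_le_mul_of_nonneg_right h2 (by positivity)
  have h5 : (rs c y j - rs c x j) ^ 2 ≤ (dl κ μ (l j) / 3) ^ 2 := by
    rw [div_pow]
    linarith
  exact abs_le_of_sq_le_sq h5 (by have := dl_nonneg κ μ (l j); positivity)

/-- total width up to a level -/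
noncomputable def Hs (κ μ : ℝ) (l : ℕ) : ℝ := ∑ k ∈ Finset.range l, 4 / 3 * dl κ μ k

theorem Hs_mono (κ μ : ℝ) {l l' : ℕ} (h : l ≤ l') : Hs κ μ l ≤ Hs κ μ l' := by
  unfold Hs
  apply Finset.sum_le_sum_of_subset_of_nonneg (Finset.range_subset_range.2 h)
  intro i _ _
  have := dl_nonneg κ μ i
  positivity

/-- load of a column -/
noncomputable def load (c : J → V → ℝ) (l : J → ℕ) (i : V) : ℝ := ∑ j, 2 ^ l j * c j i ^ 2

/-- columns which are not paused -/
noncomputable def Wset (c : J → V → ℝ) (κ : ℝ) (K : ℕ) (l : J → ℕ) : Finset V :=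
  Finset.univ.filter fun i => load c l i ≤ κ ∧ ∀ j, c j i ≠ 0 → l j ≤ K

theorem mem_Wset {c : J → V → ℝ} {κ : ℝ} {K : ℕ} {l : J → ℕ} {i : V} :
    i ∈ Wset c κ K l ↔ load c l i ≤ κ ∧ ∀ j, c j i ≠ 0 → l j ≤ K := by simp [Wset]

theorem Wset_anti (c : J → V → ℝ) (κ : ℝ) (K : ℕ) {l l' : J → ℕ} (h : ∀ j, l j ≤ l' j) :
    Wset c κ K l' ⊆ Wset c κ K l := by
  intro i hi
  rw [mem_Wset] at hi ⊢
  refine ⟨le_trans (Finset.sum_le_sum fun j _ => ?_) hi.1, fun j hj => (h j).trans (hi.2 j hj)⟩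
  exact mul_le_mul_of_nonneg_right (pow_le_pow_right₀ (by norm_num) (h j)) (sq_nonneg _)

/-- invariants -/
structure Inv (c : J → V → ℝ) (κ μ : ℝ) (K : ℕ) (z x : V → ℝ) (l : J → ℕ) (h : J → ℝ) : Prop where
  hx : ∀ i, |x i| ≤ 1
  hl : ∀ j, l j ≤ K + 1
  h1 : ∀ j, l j ≤ K → |rs c x j - h j| < dl κ μ (l j)
  h2 : ∀ j, l j = K + 1 → rs c x j = h j
  h3 : ∀ j, |h j - rs c z j| ≤ Hs κ μ (l j)
  h4 : ∀ i, |z i| = 1 → x i = z i
  h5 : ∀ j, (∀ i, c j i ≠ 0 → |z i| = 1) → l j = 0 ∧ h j = rs c z j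

theorem relevel (c : J → V → ℝ) {κ μ : ℝ} (hκ : 0 < κ) (hμ : 0 ≤ μ) {a : X → J → ℝ}
    (ha : ∀ t j, 0 ≤ a t j) (ha1 : ∀ t j, a t j ≤ 1) {om : X → ℝ} (hom : ∀ t, 0 ≤ om t)
    {K : ℕ} (z y : V → ℝ) (A : Finset V) (l : J → ℕ) (h : J → ℝ)
    (h1 : ∀ j, l j ≤ K → |rs c y j - h j| < 4 / 3 * dl κ μ (l j))
    (h3 : ∀ j, |h j - rs c z j| ≤ Hs κ μ (l j)) (T : Finset J) :
    ∃ (l' : J → ℕ) (h' : J → ℝ), (∀ j, j ∉ T → l' j = l j ∧ h' j = h j) ∧
      (∀ j ∈ T, (l' j = l j ∧ h' j = h j ∧ (l j ≤ K → |rs c y j - h j| < dl κ μ (l j))) ∨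
        (l j ≤ K ∧ l' j = l j + 1 ∧ h' j = rs c y j ∧ dl κ μ (l j) ≤ |rs c y j - h j|)) ∧
      (∀ j, |h' j - rs c z j| ≤ Hs κ μ (l' j)) ∧
      ∑ t, om t * P c κ μ (a t) A y l' h' ≤ ∑ t, om t * P c κ μ (a t) A y l h := by
  induction T using Finset.induction_on with
  | empty => exact ⟨l, h, fun j _ => ⟨rfl, rfl⟩, fun j hj => absurd hj (Finset.notMem_empty j), h3,
      le_rfl⟩
  | insert S T hST ih =>
    obtain ⟨l', h', i1, i2, i3, i4⟩ := ih
    obtain ⟨e1, e2⟩ := i1 S hST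
    by_cases hc : l S ≤ K ∧ dl κ μ (l S) ≤ |rs c y S - h S|
    · refine ⟨Function.update l' S (l' S + 1), Function.update h' S (rs c y S), fun j hj => ?_,
        fun j hj => ?_, fun j => ?_, ?_⟩
      · have hjS : j ≠ S := fun hh => hj (hh ▸ Finset.mem_insert_self _ _)
        rw [Function.update_of_ne hjS, Function.update_of_ne hjS]
        exact i1 j (fun hh => hj (Finset.mem_insert_of_mem hh))
      · by_cases hjS : j = S
        · subst hjS
          rw [Function.update_self, Function.update_self, e1]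
          exact Or.inr ⟨hc.1, rfl, rfl, hc.2⟩
        · rw [Function.update_of_ne hjS, Function.update_of_ne hjS]
          rcases Finset.mem_insert.1 hj with hj | hj
          · exact absurd hj hjS
          · exact i2 j hj
      · by_cases hjS : j = S
        · subst hjS
          rw [Function.update_self, Function.update_self]
          have h3 := i3 j
          have h4 := h1 j hc.1
          rw [← e1, ← e2] at h4
          unfold Hs at h3 ⊢
          rw [Finset.sum_range_succ]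
          have e3 : rs c y j - rs c z j = (rs c y j - h' j) + (h' j - rs c z j) := by ring
          rw [e3]
          refine (abs_add_le _ _).trans ?_
          linarith
        · rw [Function.update_of_ne hjS, Function.update_of_ne hjS]
          exact i3 j
      · refine le_trans (Finset.sum_le_sum fun t _ => ?_) i4
        apply mul_le_mul_of_nonneg_left _ (hom t)
        exact P_level c hκ hμ (ha t) (ha1 t) A y l' h' S (by rw [e1, e2]; exact hc.2)
    · refine ⟨l', h', fun j hj => i1 j (fun hh => hj (Finset.mem_insert_of_mem hh)), fun j hj => ?_,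
        i3, i4⟩
      rcases Finset.mem_insert.1 hj with hj | hj
      · rw [hj]
        exact Or.inl ⟨e1, e2, fun hK => not_le.1 (fun hh => hc ⟨hK, hh⟩)⟩
      · exact i2 j hj

theorem main_induction (c : J → V → ℝ) {κ μ : ℝ} (hκ : 0 < κ) (hμ : 0 ≤ μ) {a : X → J → ℝ}
    (ha : ∀ t j, 0 ≤ a t j) (ha1 : ∀ t j, a t j ≤ 1) {om : X → ℝ} (hom : ∀ t, 0 ≤ om t)
    {K : ℕ} (z : V → ℝ) (n : ℕ) :
    ∀ (x : V → ℝ) (l : J → ℕ) (h : J → ℝ), (Al (Wset c κ K l) x).card ≤ n →
      Inv c κ μ K z x l h →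
      ∑ t, om t * P c κ μ (a t) (Al (Wset c κ K l) x) x l h < 1 →
      ∃ (y : V → ℝ) (l' : J → ℕ) (h' : J → ℝ), Inv c κ μ K z y l' h' ∧
        Al (Wset c κ K l') y = ∅ ∧ ∑ t, om t * P c κ μ (a t) ∅ y l' h' < 1 := by
  induction n with
  | zero =>
    intro x l h hc hI h3
    have he := Finset.card_eq_zero.1 (Nat.le_zero.1 hc)
    rw [he] at h3
    exact ⟨x, l, h, hI, he, h3⟩
  | succ n ih =>
    intro x l h hc hI h3
    rcases (Al (Wset c κ K l) x).eq_empty_or_nonempty with he | ⟨p, hp⟩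
    · rw [he] at h3
      exact ⟨x, l, h, hI, he, h3⟩
    · set W := Wset c κ K l with hW
      have hbp : ‖bv c κ l p‖ ≤ 1 := by
        have g0 := (mem_Wset.1 (mem_Al.1 hp).1).1
        have g1 : ‖bv c κ l p‖ ^ 2 ≤ 1 := by
          rw [normsq_bv c hκ]
          calc ∑ j, 2 ^ l j / κ * c j p ^ 2 = load c l p / κ := by
                unfold load
                rw [Finset.sum_div]
                exact Finset.sum_congr rfl fun j _ => by ring
            _ ≤ 1 := by rw [div_le_one hκ]; exact g0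
        have g2 : ‖bv c κ l p‖ ^ 2 ≤ 1 ^ 2 := by rw [one_pow]; exact g1
        exact (abs_le_of_sq_le_sq' g2 zero_le_one).2
      obtain ⟨y, y1, y0, y2, y3, y4⟩ := P_phase c hκ hμ ha hom hI.hx l h hp hbp h3
      obtain ⟨l', h', r1, r2, r3, r4⟩ := relevel c hκ hμ ha ha1 hom (K := K) z y (Al W y) l h
        (fun j hj => by
          have g1 := y3 j
          have g2 := hI.h1 j hj
          have e : rs c y j - h j = (rs c y j - rs c x j) + (rs c x j - h j) := by ring
          rw [e]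
          refine (abs_add_le _ _).trans_lt ?_
          linarith) hI.h3 Finset.univ
      have hll : ∀ j, l j ≤ l' j := by
        intro j
        rcases r2 j (Finset.mem_univ j) with hh | hh
        · exact hh.1.ge
        · rw [hh.2.1]; exact Nat.le_succ _
      have hWW : Wset c κ K l' ⊆ W := Wset_anti c κ K hll
      have hAA : Al (Wset c κ K l') y ⊆ Al W y := Finset.filter_subset_filter _ hWW
      have hrow : ∀ j, l j = K + 1 → rs c y j = rs c x j := by
        intro j hj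
        unfold rs
        refine Finset.sum_congr rfl fun i _ => ?_
        by_cases hc0 : c j i = 0
        · rw [hc0, zero_mul, zero_mul]
        · rw [y0 i (fun hi => by
            have := (mem_Wset.1 (mem_Al.1 hi).1).2 j hc0
            omega)]
      have hy4 : ∀ i, |z i| = 1 → y i = z i := by
        intro i hi
        rw [y0 i (fun hh => by
          have g1 := (mem_Al.1 hh).2
          rw [hI.h4 i hi, hi] at g1
          exact absurd g1 (lt_irrefl _))]
        exact hI.h4 i hi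
      refine ih y l' h' ?_ ⟨y1, fun j => ?_, fun j hj => ?_, fun j hj => ?_, r3, hy4, fun j hj => ?_⟩ ?_
      · have g1 := Finset.card_le_card (hAA.trans y2)
        rw [Finset.card_erase_of_mem hp] at g1
        omega
      · rcases r2 j (Finset.mem_univ j) with hh | hh
        · rw [hh.1]; exact hI.hl j
        · rw [hh.2.1]; exact Nat.succ_le_succ hh.1
      · rcases r2 j (Finset.mem_univ j) with hh | hh
        · rw [hh.1, hh.2.1]
          rw [hh.1] at hj
          exact hh.2.2 hj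
        · rw [hh.2.2.1, sub_self, abs_zero]
          exact dl_pos hκ hμ _
      · rcases r2 j (Finset.mem_univ j) with hh | hh
        · rw [hh.2.1]
          rw [hh.1] at hj
          rw [hrow j hj]
          exact hI.h2 j hj
        · exact hh.2.2.1.symm
      · obtain ⟨e1, e2⟩ := hI.h5 j hj
        have e3 : rs c y j = rs c z j := by
          unfold rs
          refine Finset.sum_congr rfl fun i _ => ?_
          by_cases hc0 : c j i = 0
          · rw [hc0, zero_mul, zero_mul]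
          · rw [hy4 i (hj i hc0)]
        rcases r2 j (Finset.mem_univ j) with hh | hh
        · exact ⟨hh.1.trans e1, hh.2.1.trans e2⟩
        · have g1 := hh.2.2.2
          rw [e2, e3, sub_self, abs_zero] at g1
          exact absurd g1 (not_le.2 (dl_pos hκ hμ _))
      · refine lt_of_le_of_lt ?_ (r4.trans_lt y4)
        refine Finset.sum_le_sum fun t _ => ?_
        exact mul_le_mul_of_nonneg_left (P_mono c κ hμ (ha t) hAA y l' h') (hom t)

/-- Adaptive Gram-Schmidt walk: the abstract theorem. -/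
theorem adaptive (c : J → V → ℝ) {κ μ : ℝ} (hκ : 0 < κ) (hμ : 0 ≤ μ) (hμ1 : μ ≤ 1)
    {a : X → J → ℝ} (ha : ∀ t j, 0 ≤ a t j) (ha1 : ∀ t j, a t j ≤ 1) {om : X → ℝ}
    (hom : ∀ t, 0 ≤ om t) (K : ℕ) (hsum : ∑ t, om t * exp (6 * μ * ∑ j, a t j) < 1)
    {z : V → ℝ} (hz : ∀ i, |z i| ≤ 1) :
    ∃ (y : V → ℝ) (l : J → ℕ), (∀ i, |y i| ≤ 1) ∧ (∀ i, |z i| = 1 → y i = z i) ∧
      (∀ i, |y i| < 1 → κ < load c l i ∨ ∃ j, c j i ≠ 0 ∧ l j = K + 1) ∧
      (∀ j, (∀ i, c j i ≠ 0 → |z i| = 1) → l j = 0) ∧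
      (∀ t, om t * exp (μ * ∑ j, 2 ^ l j * a t j) < 1) ∧
      ∀ j, |rs c y j - rs c z j| ≤ Hs κ μ (K + 1) := by
  obtain ⟨y, l, h, hI, y2, y5⟩ := main_induction c hκ hμ ha ha1 hom (K := K) z _ z
    (fun _ => 0) (rs c z) le_rfl
    ⟨hz, fun j => Nat.zero_le _, fun j _ => by rw [sub_self, abs_zero]; exact dl_pos hκ hμ _,
      fun j hj => rfl, fun j => by rw [sub_self, abs_zero]; unfold Hs; simp,
      fun i _ => rfl, fun j _ => ⟨rfl, rfl⟩⟩ (by
      refine lt_of_le_of_lt (Finset.sum_le_sum fun t _ => ?_) hsum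
      exact mul_le_mul_of_nonneg_left (P_init c hκ hμ hμ1 (ha t) (ha1 t) _ z) (hom t))
  refine ⟨y, l, hI.hx, hI.h4, fun i hi => ?_, fun j hj => (hI.h5 j hj).1, fun t => ?_, fun j => ?_⟩
  · by_contra hcon
    push Not at hcon
    have h1 : i ∈ Al (Wset c κ K l) y := by
      rw [mem_Al, mem_Wset]
      refine ⟨⟨hcon.1, fun j hj => ?_⟩, hi⟩
      have g1 := hI.hl j
      have g2 := hcon.2 j hj
      omega
    rw [y2] at h1
    exact absurd h1 (Finset.notMem_empty i)
  · have g1 := P_ge c κ hμ (ha t) ∅ y l h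
    have g2 : om t * P c κ μ (a t) ∅ y l h ≤ ∑ t, om t * P c κ μ (a t) ∅ y l h :=
      Finset.single_le_sum (f := fun t => om t * P c κ μ (a t) ∅ y l h)
        (fun s _ => mul_nonneg (hom s) ((exp_pos _).le.trans (P_ge c κ hμ (ha s) ∅ y l h)))
        (Finset.mem_univ t)
    exact ((mul_le_mul_of_nonneg_left g1 (hom t)).trans g2).trans_lt y5
  · have e : rs c y j - rs c z j = (rs c y j - h j) + (h j - rs c z j) := by ring
    rw [e]
    refine (abs_add_le _ _).trans ?_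
    have g2 := hI.h3 j
    have g3 := dl_nonneg κ μ (l j)
    rcases Nat.lt_or_ge K (l j) with hj | hj
    · have hj' : l j = K + 1 := by have := hI.hl j; omega
      rw [hI.h2 j hj', sub_self, abs_zero, zero_add, ← hj']
      exact g2
    · have g1 := hI.h1 j hj
      have g4 : Hs κ μ (l j + 1) ≤ Hs κ μ (K + 1) := Hs_mono κ μ (Nat.succ_le_succ hj)
      have g5 : Hs κ μ (l j + 1) = Hs κ μ (l j) + 4 / 3 * dl κ μ (l j) := by
        unfold Hs; rw [Finset.sum_range_succ]
      linarith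

end Pool.Agent.Helper22.LT
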