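import Pool.Agent.Helper22.LT.Main

namespace Pool.Agent.Helper22.LT

open Real

/-- positive part of the binary logarithm -/
noncomputable def lg (y : ℝ) : ℝ := max 0 (logb 2 y)

theorem lg_nonneg (y : ℝ) : 0 ≤ lg y := le_max_left _ _

theorem lg_mono {x y : ℝ} (hx : 0 < x) (h : x ≤ y) : lg x ≤ lg y :=
  max_le_max le_rfl (logb_le_logb_of_le (by norm_num) hx h)

theorem lg_two_mul {y : ℝ} (hy : 1 ≤ y) : lg (2 * y) = lg y + 1 := by
  have h1 : 0 ≤ logb 2 y := logb_nonneg (by norm_num) hy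
  have h2 : logb 2 (2 * y) = 1 + logb 2 y := by
    rw [logb_mul (by norm_num) (by linarith), logb_self_eq_one (by norm_num)]
  unfold lg
  rw [max_eq_right h1, h2, max_eq_right (by linarith)]
  ring

theorem sum_sqrt_le {μ : ℝ} (hμ : 0 ≤ μ) (l : ℕ) :
    ∑ k ∈ Finset.range (l + 1), √(1 / 2 ^ k + μ)
      ≤ 7 * (1 - √(1 / 2) ^ (l + 1)) + √(2 * μ) * lg (μ * 2 ^ l) + (if μ ≤ 1 then 0 else √(2 * μ)) := by
  set r : ℝ := √(1 / 2) with hr
  have hr0 : 0 ≤ r := sqrt_nonneg _
  have hr2 : r ^ 2 = 1 / 2 := sq_sqrt (by norm_num)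
  have hr1 : r ≤ 5 / 7 := by
    rw [hr, sqrt_le_left (by norm_num)]; norm_num
  have hrk : ∀ k : ℕ, √(1 / 2 ^ k) = r ^ k := by
    intro k
    rw [show (1 : ℝ) / 2 ^ k = (r ^ k) ^ 2 by rw [← pow_mul, mul_comm, pow_mul, hr2]; simp,
      sqrt_sq (pow_nonneg hr0 k)]
  have hterm : ∀ k : ℕ, μ * 2 ^ k ≤ 1 → √(1 / 2 ^ k + μ) ≤ 2 * r ^ k := by
    intro k hk
    have hp : (0 : ℝ) < 2 ^ k := by positivity
    have h1 : μ ≤ 1 / 2 ^ k := by rw [le_div_iff₀ hp]; exact hk
    calc √(1 / 2 ^ k + μ) ≤ √(4 * (1 / 2 ^ k)) := sqrt_le_sqrt (by linarith [div_nonneg zero_le_one hp.le])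
      _ = 2 * r ^ k := by
          rw [sqrt_mul (by norm_num), hrk, show (4 : ℝ) = 2 ^ 2 by norm_num, sqrt_sq (by norm_num)]
  have hterm2 : ∀ k : ℕ, 1 ≤ μ * 2 ^ k → √(1 / 2 ^ k + μ) ≤ √(2 * μ) := by
    intro k hk
    have hp : (0 : ℝ) < 2 ^ k := by positivity
    have h1 : 1 / 2 ^ k ≤ μ := by rw [div_le_iff₀ hp]; exact hk
    exact sqrt_le_sqrt (by linarith)
  induction l with
  | zero =>
    simp only [zero_add, Finset.range_one, Finset.sum_singleton, pow_zero, mul_one, pow_one]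
    have hlg := mul_nonneg (sqrt_nonneg (2 * μ)) (lg_nonneg μ)
    split_ifs with h
    · have h1 := hterm 0 (by simpa using h)
      simp only [pow_zero, mul_one] at h1
      have : 2 ≤ 7 * (1 - r) := by linarith
      linarith
    · have h1 := hterm2 0 (by simp only [pow_zero, mul_one]; linarith)
      simp only [pow_zero] at h1
      have : 0 ≤ 7 * (1 - r) := by linarith
      linarith
  | succ l ih =>
    rw [Finset.sum_range_succ]
    have hpl : (0 : ℝ) < 2 ^ (l + 1) := by positivity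
    have hrp : 0 ≤ r ^ (l + 1) := pow_nonneg hr0 _
    have hgeo : 7 * (1 - r ^ (l + 1)) + 2 * r ^ (l + 1) ≤ 7 * (1 - r ^ (l + 1 + 1)) := by
      rw [pow_succ r (l + 1)]
      nlinarith
    rcases le_total (μ * 2 ^ (l + 1)) 1 with h | h
    · have h1 := hterm (l + 1) h
      have h2 : lg (μ * 2 ^ l) ≤ lg (μ * 2 ^ (l + 1)) := by
        rcases hμ.eq_or_lt with h0 | h0
        · rw [← h0]; simp
        · apply lg_mono (by positivity)
          apply mul_le_mul_of_nonneg_left _ hμ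
          exact pow_le_pow_right₀ (by norm_num) (Nat.le_succ l)
      have h3 := mul_le_mul_of_nonneg_left h2 (sqrt_nonneg (2 * μ))
      linarith
    · rcases le_total (μ * 2 ^ l) 1 with h4 | h4
      · -- first large level
        have hμ0 : 0 < μ := by
          rcases hμ.eq_or_lt with h0 | h0
          · rw [← h0] at h; norm_num at h
          · exact h0
        have h1 : √(1 / 2 ^ (l + 1) + μ) ≤ 2 * r ^ (l + 1) := by
          have h5 : μ ≤ 2 * (1 / 2 ^ (l + 1)) := by
            rw [mul_one_div, le_div_iff₀ hpl, pow_succ]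
            linarith
          calc √(1 / 2 ^ (l + 1) + μ) ≤ √(4 * (1 / 2 ^ (l + 1))) :=
                sqrt_le_sqrt (by linarith [div_nonneg zero_le_one hpl.le])
            _ = 2 * r ^ (l + 1) := by
                rw [sqrt_mul (by norm_num), hrk, show (4 : ℝ) = 2 ^ 2 by norm_num,
                  sqrt_sq (by norm_num)]
        have h2 : lg (μ * 2 ^ l) ≤ lg (μ * 2 ^ (l + 1)) := by
          apply lg_mono (by positivity)
          apply mul_le_mul_of_nonneg_left _ hμ
          exact pow_le_pow_right₀ (by norm_num) (Nat.le_succ l)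
        have h3 := mul_le_mul_of_nonneg_left h2 (sqrt_nonneg (2 * μ))
        linarith
      · have h1 := hterm2 (l + 1) h
        have h2 : lg (μ * 2 ^ (l + 1)) = lg (μ * 2 ^ l) + 1 := by
          rw [← lg_two_mul h4, pow_succ]
          congr 1; ring
        rw [h2]
        have h3 : 7 * (1 - r ^ (l + 1)) ≤ 7 * (1 - r ^ (l + 1 + 1)) := by linarith
        linarith

end Pool.Agent.Helper22.LT
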