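import Pool.Agent.Helper26.GswMain

namespace Pool.Agent.Helper22.LT

open Real Filter Pool.Agent.Helper26.Gsw
open scoped RealInnerProductSpace Topology Classical

variable {V : Type*} [Fintype V]
variable {H : Type*} [NormedAddCommGroup H] [InnerProductSpace ℝ H] [FiniteDimensional ℝ H]

/-- alive coordinates -/
noncomputable def Al (W : Finset V) (x : V → ℝ) : Finset V := W.filter (fun i => |x i| < 1)

omit [Fintype V] in
theorem mem_Al {W : Finset V} {x : V → ℝ} {i : V} : i ∈ Al W x ↔ i ∈ W ∧ |x i| < 1 := by simp [Al]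

variable {W : Finset V}

theorem step {x u : V → ℝ} (hx : ∀ i, |x i| ≤ 1) (hu : ∀ i, i ∉ Al W x → u i = 0)
    {p : V} (hp : u p ≠ 0) :
    ∃ d : ℝ, 0 < d ∧ (∀ i, |x i + d * u i| ≤ 1) ∧ Al W (fun i => x i + d * u i) ⊂ Al W x := by
  have hx' : Feas (J := Empty) (fun j => j.elim) (fun j => j.elim) x x := ⟨hx, fun j => j.elim⟩
  have hal : ∀ (y : V → ℝ) i,
      Alive (J := Empty) (fun j => j.elim) (fun j => j.elim) x y i ↔ |y i| < 1 := by
    intro y i
    exact ⟨fun h => h.1, fun h => ⟨h, fun j => j.elim⟩⟩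
  obtain ⟨d, hd, hf, i, h1, h2⟩ := step_exists hx' (u := u)
    (fun i hi => hu i (fun h => hi ((hal x i).2 (mem_Al.1 h).2))) hp
  refine ⟨d, hd, hf.1, ?_⟩
  rw [hal] at h1 h2
  have hiA : i ∈ Al W x := by
    by_contra hcon
    have h3 := hu i hcon
    simp only [h3, mul_zero, add_zero] at h2
    exact h2 h1
  rw [Finset.ssubset_iff_of_subset]
  · exact ⟨i, hiA, fun h => h2 (mem_Al.1 h).2⟩
  · intro k hk
    by_contra hcon
    have h3 := hu k hcon
    rw [mem_Al] at hk hcon
    simp only [h3, mul_zero, add_zero] at hk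
    exact hcon hk

/-- outcomes of a pivot phase -/
def Out (W : Finset V) (v : V → H) (p : V) (x : V → ℝ) : Set (V → ℝ) :=
  {y | (∀ i, |y i| ≤ 1) ∧ (∀ i, i ∉ Al W x → y i = x i) ∧ Al W y ⊆ (Al W x).erase p ∧
    ∃ D ∈ Sp v ((Al W x).erase p), ∑ i, (y i - x i) • v i
      = (y p - x p) • (v p - (Sp v ((Al W x).erase p)).starProjection (v p)) + D ∧
      ‖D‖ ^ 2 ≤ 4 * ‖(Sp v ((Al W x).erase p)).starProjection (v p)‖ ^ 2}

/-- test function of a phase -/
noncomputable def tf (W : Finset V) (v : V → H) (θ : H) (x : V → ℝ) (y : V → ℝ) : ℝ :=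
  mom v θ x y * exp (‖(Sp v (Al W y)).starProjection θ‖ ^ 2 / 2)

theorem tf_shift (v : V → H) (θ : H) (x u : V → ℝ) (d : ℝ) (q : H)
    (hq : ∑ i, u i • v i = q) :
    tf W v θ x = exp (d * ⟪θ, q⟫) • tf W v θ (fun i => x i + d * u i) := by
  funext y
  have h := congrFun (mom_shift v θ x u d q hq) y
  simp only [Pi.smul_apply, smul_eq_mul] at h
  simp only [tf, Pi.smul_apply, smul_eq_mul]
  rw [h]
  ring

theorem phase (v : V → H) (p : V) (hv : ‖v p‖ ≤ 1) (n : ℕ) :
    ∀ x : V → ℝ, (∀ i, |x i| ≤ 1) → p ∈ Al W x → (Al W x).card ≤ n →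
      ∃ E : ((V → ℝ) → ℝ) →ₗ[ℝ] ℝ, IsLaw (Out W v p x) E ∧
        ∀ θ, E (tf W v θ x) ≤ Phi (Sp v ((Al W x).erase p)) (v p) θ (x p) := by
  induction n with
  | zero =>
    intro x hx hp hcard
    have hemp : Al W x = ∅ := Finset.card_eq_zero.1 (Nat.le_zero.1 hcard)
    rw [hemp] at hp; exact absurd hp (Finset.notMem_empty p)
  | succ n ih =>
    intro x hx hp hcard
    set U := Sp v ((Al W x).erase p) with hU
    have hPU : U.starProjection (v p) ∈ Submodule.span ℝ (v '' (((Al W x).erase p : Finset V) : Set V)) :=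
      U.starProjection_apply_mem (v p)
    rw [Submodule.mem_span_image_finset_iff_exists_fun'] at hPU
    obtain ⟨l, hl⟩ := hPU
    set u : V → ℝ := fun i => if i = p then 1 else if i ∈ (Al W x).erase p then - l i else 0
      with hu
    have hup : u p = 1 := by simp [hu]
    have husup : ∀ i, i ∉ Al W x → u i = 0 := by
      intro i h1
      have h2 : i ≠ p := fun h => h1 (h ▸ hp)
      have h3 : i ∉ (Al W x).erase p := fun h => h1 (Finset.mem_of_mem_erase h)
      simp only [hu, if_neg h2, if_neg h3]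
    set q := v p - U.starProjection (v p) with hq
    have hsum : ∑ i, u i • v i = q := by
      rw [hq, ← hl]
      have e1 : ∀ i, u i • v i = (if i = p then v p else 0)
          - (if i ∈ (Al W x).erase p then l i • v i else 0) := by
        intro i
        by_cases h1 : i = p
        · subst h1
          simp [hu]
        · by_cases h2 : i ∈ (Al W x).erase p
          · simp only [hu, if_neg h1, if_pos h2, neg_smul, zero_sub]
          · simp only [hu, if_neg h1, if_neg h2, zero_smul, sub_zero]
      simp_rw [e1]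
      rw [Finset.sum_sub_distrib]
      congr 1
      · simp
      · rw [← Finset.sum_filter]
        congr 1
        ext i; simp
    -- sub-claim for one endpoint
    have endpt : ∀ d : ℝ, (∀ i, |x i + d * u i| ≤ 1) →
        Al W (fun i => x i + d * u i) ⊂ Al W x →
        ∃ E : ((V → ℝ) → ℝ) →ₗ[ℝ] ℝ, IsLaw (Out W v p x) E ∧
          ∀ θ, E (tf W v θ (fun i => x i + d * u i)) ≤ Phi U (v p) θ (x p + d) := by
      intro d hfe hss
      set x' : V → ℝ := fun i => x i + d * u i with hx'
      have hsub : Al W x' ⊆ Al W x := hss.1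
      have hc' : (Al W x').card ≤ n := by
        have := Finset.card_lt_card hss
        omega
      have hxp : x' p = x p + d := by simp [hx', hup]
      have hb := abs_le.1 (hfe p)
      have hb' : -1 ≤ x p + d ∧ x p + d ≤ 1 := by
        rw [hup, mul_one] at hb
        exact hb
      have hdq : ∑ i, (x' i - x i) • v i = d • q := by
        rw [← hsum, Finset.smul_sum]
        refine Finset.sum_congr rfl fun i _ => ?_
        rw [smul_smul]
        congr 1
        simp [hx']
      by_cases hpa : p ∈ Al W x'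
      · obtain ⟨E, hE, hbd⟩ := ih x' hfe hpa hc'
        refine ⟨E, hE.subset ?_, fun θ => (hbd θ).trans ?_⟩
        · rintro y ⟨hy1, hy0, hy2, D', hD', hy3, hy4⟩
          set U' := Sp v ((Al W x').erase p) with hU'
          have hUU : U' ≤ U := Sp_mono v (Finset.erase_subset_erase p hsub)
          set ρ := U.starProjection (v p) - U'.starProjection (v p) with hρ
          refine ⟨hy1, fun i hi => ?_, hy2.trans (Finset.erase_subset_erase p hsub),
            (y p - x' p) • ρ + D', ?_, ?_, ?_⟩
          · rw [hy0 i (fun h => hi (hsub h))]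
            simp only [hx', husup i hi, mul_zero, add_zero]
          · apply U.add_mem
            · apply U.smul_mem
              exact U.sub_mem (U.starProjection_apply_mem _) (hUU (U'.starProjection_apply_mem _))
            · exact hUU hD'
          · have e1 : ∑ i, (y i - x i) • v i = ∑ i, (y i - x' i) • v i + ∑ i, (x' i - x i) • v i := by
              rw [← Finset.sum_add_distrib]
              refine Finset.sum_congr rfl fun i _ => ?_
              rw [← add_smul]
              congr 1
              ring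
            rw [e1, hy3, hdq]
            have e2 : v p - U'.starProjection (v p) = q + ρ := by
              rw [hq, hρ]; abel
            have e3 : y p - x p = (y p - x' p) + d := by rw [hxp]; ring
            rw [e2, e3, smul_add, add_smul]
            abel
          · have horth : ⟪ρ, D'⟫ = 0 := by
              rw [hρ, inner_sub_left]
              have a1 := U.starProjection_inner_eq_zero (v p) D' (hUU hD')
              have a2 := U'.starProjection_inner_eq_zero (v p) D' hD'
              rw [inner_sub_left] at a1 a2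
              linarith
            have hnn : ‖(y p - x' p) • ρ + D'‖ ^ 2 = (y p - x' p) ^ 2 * ‖ρ‖ ^ 2 + ‖D'‖ ^ 2 := by
              rw [← real_inner_self_eq_norm_sq, inner_add_left, inner_add_right, inner_add_right,
                inner_smul_left, inner_smul_right, inner_smul_left, inner_smul_right,
                real_inner_comm ρ D', horth, real_inner_self_eq_norm_sq, real_inner_self_eq_norm_sq]
              simp only [conj_trivial]
              ring
            have hρ2 : ‖ρ‖ ^ 2 = ‖U.starProjection (v p)‖ ^ 2 - ‖U'.starProjection (v p)‖ ^ 2 :=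
              norm_sq_diff hUU _
            have h4 : (y p - x' p) ^ 2 ≤ 4 := by
              have g1 := abs_le.1 (hy1 p)
              have g2 := abs_le.1 (hfe p)
              have g3 : x' p = x p + d * u p := rfl
              rw [← g3] at g2
              nlinarith [g1.1, g1.2, g2.1, g2.2]
            rw [hnn]
            have h5 := mul_le_mul_of_nonneg_right h4 (sq_nonneg ‖ρ‖)
            nlinarith
        · rw [hxp]
          exact Phi_jump (Sp_mono v (Finset.erase_subset_erase p hsub)) hv θ hb'.1 hb'.2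
      · have hsub' : Al W x' ⊆ (Al W x).erase p := fun i hi =>
            Finset.mem_erase.2 ⟨fun h => hpa (h ▸ hi), hsub hi⟩
        refine ⟨LinearMap.proj x', IsLaw.dirac ⟨hfe, fun i hi => ?_, hsub', 0, U.zero_mem, ?_, ?_⟩,
          fun θ => ?_⟩
        · simp only [hx', husup i hi, mul_zero, add_zero]
        · rw [hdq, add_zero]
          congr 1
          rw [hxp]; ring
        · rw [norm_zero]
          nlinarith [sq_nonneg ‖U.starProjection (v p)‖]
        · refine le_trans ?_ (Phi_drop U hv θ hb'.1 hb'.2)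
          have e0 : tf W v θ x' x' = exp (‖(Sp v (Al W x')).starProjection θ‖ ^ 2 / 2) := by
            simp [tf, mom]
          rw [LinearMap.proj_apply, e0]
          apply exp_le_exp.2
          have := proj_mono (Sp_mono v hsub') θ
          rw [← hU] at this
          linarith
    obtain ⟨d1, hd1, hf1, he1⟩ := step hx husup (p := p) (by rw [hup]; exact one_ne_zero)
    have husup' : ∀ i, i ∉ Al W x → (fun i => - u i) i = 0 := fun i hi => by
      simp [husup i hi]
    obtain ⟨d2, hd2, hf2, he2⟩ := step hx husup' (p := p)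
      (by simp only [hup]; norm_num)
    have erw : (fun i => x i + d2 * (fun i => - u i) i) = fun i => x i + (-d2) * u i := by
      funext i; ring
    have hf2' : ∀ i, |x i + (-d2) * u i| ≤ 1 := by
      intro i
      have := hf2 i
      have e : x i + d2 * (fun i => - u i) i = x i + (-d2) * u i := by ring
      rw [e] at this
      exact this
    rw [erw] at he2
    obtain ⟨E1, hE1, hb1⟩ := endpt d1 hf1 he1
    obtain ⟨E2, hE2, hb2⟩ := endpt (-d2) hf2' he2
    have hsum12 : 0 < d1 + d2 := by linarith
    set w : ℝ := d2 / (d1 + d2) with hw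
    have hw0 : 0 ≤ w := by positivity
    have hw1 : w ≤ 1 := by rw [hw, div_le_one hsum12]; linarith
    have hw1' : 0 ≤ 1 - w := by linarith
    have hwd : w * d1 - (1 - w) * d2 = 0 := by
      rw [hw]; field_simp; ring
    refine ⟨w • E1 + (1 - w) • E2, hE1.mix hE2 hw0 hw1, fun θ => ?_⟩
    have a1 : E1 (tf W v θ x) = exp (d1 * al U (v p) θ) * E1 (tf W v θ (fun i => x i + d1 * u i)) := by
      rw [tf_shift v θ x u d1 _ hsum, map_smul, smul_eq_mul]; rfl
    have a2 : E2 (tf W v θ x)
        = exp (-d2 * al U (v p) θ) * E2 (tf W v θ (fun i => x i + (-d2) * u i)) := by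
      rw [tf_shift v θ x u (-d2) _ hsum, map_smul, smul_eq_mul]; rfl
    simp only [LinearMap.add_apply, LinearMap.smul_apply, smul_eq_mul]
    rw [a1, a2]
    have b1 := mul_le_mul_of_nonneg_left (hb1 θ) (exp_pos (d1 * al U (v p) θ)).le
    have b2 := mul_le_mul_of_nonneg_left (hb2 θ) (exp_pos (-d2 * al U (v p) θ)).le
    set a := al U (v p) θ with ha
    set C := exp ((‖U.starProjection θ‖ ^ 2 + a ^ 2 / ga U (v p)) / 2 - a ^ 2 / 2) with hC
    have c1 : exp (d1 * a) * Phi U (v p) θ (x p + d1)
        = C * (G (x p) a + d1 * ((exp (a * (1 - x p)) - exp (-(a * (1 + x p)))) / 2)) := by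
      rw [← G_shift]; unfold Phi; rw [← ha, ← hC]; ring
    have c2 : exp (-d2 * a) * Phi U (v p) θ (x p + -d2)
        = C * (G (x p) a + -d2 * ((exp (a * (1 - x p)) - exp (-(a * (1 + x p)))) / 2)) := by
      rw [← G_shift]; unfold Phi; rw [← ha, ← hC]; ring
    have c0 : Phi U (v p) θ (x p) = C * G (x p) a := rfl
    rw [c1] at b1
    rw [c2] at b2
    rw [c0]
    set κ := (exp (a * (1 - x p)) - exp (-(a * (1 + x p)))) / 2 with hκ
    have m1 := mul_le_mul_of_nonneg_left b1 hw0
    have m2 := mul_le_mul_of_nonneg_left b2 hw1'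
    calc _ ≤ w * (C * (G (x p) a + d1 * κ)) + (1 - w) * (C * (G (x p) a + -d2 * κ)) :=
          add_le_add m1 m2
      _ = C * G (x p) a + C * κ * (w * d1 - (1 - w) * d2) := by ring
      _ = C * G (x p) a := by rw [hwd]; ring

/-- The pivot phase, in the form used below. -/
theorem phase_main (v : V → H) (p : V) (hv : ‖v p‖ ≤ 1) {x : V → ℝ} (hx : ∀ i, |x i| ≤ 1)
    (hp : p ∈ Al W x) :
    ∃ E : ((V → ℝ) → ℝ) →ₗ[ℝ] ℝ,
      IsLaw {y : V → ℝ | (∀ i, |y i| ≤ 1) ∧ (∀ i, i ∉ Al W x → y i = x i) ∧
        Al W y ⊆ (Al W x).erase p ∧ ‖∑ i, (y i - x i) • v i‖ ≤ 2} E ∧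
        ∀ θ, E (tf W v θ x) ≤ exp (‖(Sp v (Al W x)).starProjection θ‖ ^ 2 / 2) := by
  obtain ⟨E, hE, hbd⟩ := phase v p hv _ x hx hp le_rfl
  refine ⟨E, hE.subset ?_, fun θ => (hbd θ).trans ?_⟩
  · rintro y ⟨hy1, hy0, hy2, D, hD, hy3, hy4⟩
    refine ⟨hy1, hy0, hy2, ?_⟩
    set U := Sp v ((Al W x).erase p) with hU
    set q := v p - U.starProjection (v p) with hq
    have horth : ⟪q, D⟫ = 0 := U.starProjection_inner_eq_zero (v p) D hD
    have hnn : ‖∑ i, (y i - x i) • v i‖ ^ 2 = (y p - x p) ^ 2 * ‖q‖ ^ 2 + ‖D‖ ^ 2 := by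
      rw [hy3, ← real_inner_self_eq_norm_sq, inner_add_left, inner_add_right, inner_add_right,
        inner_smul_left, inner_smul_right, inner_smul_left, inner_smul_right,
        real_inner_comm q D, horth, real_inner_self_eq_norm_sq, real_inner_self_eq_norm_sq]
      simp only [conj_trivial]
      ring
    have hq2 : ‖q‖ ^ 2 = ‖v p‖ ^ 2 - ‖U.starProjection (v p)‖ ^ 2 := norm_sq_perp U (v p)
    have h4 : (y p - x p) ^ 2 ≤ 4 := by
      have g1 := abs_le.1 (hy1 p)
      have g2 := abs_le.1 (hx p)
      nlinarith [g1.1, g1.2, g2.1, g2.2]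
    have h5 := mul_le_mul_of_nonneg_right h4 (sq_nonneg ‖q‖)
    have h6 : ‖v p‖ ^ 2 ≤ 1 := by nlinarith [norm_nonneg (v p)]
    have h7 : ‖∑ i, (y i - x i) • v i‖ ^ 2 ≤ 2 ^ 2 := by
      rw [hnn]
      nlinarith
    exact (abs_le_of_sq_le_sq' h7 (by norm_num)).2
  · have hb := abs_le.1 (hx p)
    exact Phi_pick (Sp_mono v (Finset.erase_subset p _)) (mem_Sp v hp) θ hb.1 hb.2

end Pool.Agent.Helper22.LT
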