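import Pool.Agent.Helper22.LT.JJ

namespace Pool.Agent.Helper22.LT

open Real Pool.Agent.Helper26.Gsw
open scoped RealInnerProductSpace Classical

variable {V J : Type*} [Fintype V] [Fintype J]

/-- signs -/
noncomputable def sgn (s : Fin 3) : ℝ := if s = 0 then 0 else if s = 1 then 1 else -1

theorem sgn_zero : sgn 0 = 0 := by simp [sgn]
theorem sgn_one : sgn 1 = 1 := by simp [sgn]
theorem sgn_two : sgn 2 = -1 := by simp [sgn]

/-- coefficients -/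
noncomputable def gc (μ a : ℝ) (l : ℕ) (s : Fin 3) : ℝ :=
  if s = 0 then 1 else (exp (μ * 2 ^ l * a) - 1) / 2

theorem gc_zero (μ a : ℝ) (l : ℕ) : gc μ a l 0 = 1 := by simp [gc]
theorem gc_one (μ a : ℝ) (l : ℕ) : gc μ a l 1 = (exp (μ * 2 ^ l * a) - 1) / 2 := by simp [gc]
theorem gc_two (μ a : ℝ) (l : ℕ) : gc μ a l 2 = (exp (μ * 2 ^ l * a) - 1) / 2 := by simp [gc]

theorem gc_nonneg {μ a : ℝ} (hμ : 0 ≤ μ) (ha : 0 ≤ a) (l : ℕ) (s : Fin 3) : 0 ≤ gc μ a l s := by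
  unfold gc
  split_ifs
  · exact zero_le_one
  · have : 1 ≤ exp (μ * 2 ^ l * a) := one_le_exp (by positivity)
    linarith

/-- slopes -/
noncomputable def ell (κ μ : ℝ) (l : ℕ) : ℝ := √(2 ^ l * (1 + μ * 2 ^ l) / κ)

/-- level widths -/
noncomputable def dl (κ μ : ℝ) (l : ℕ) : ℝ := 6 * √(κ * (1 + μ * 2 ^ l) / 2 ^ l)

theorem ell_nonneg (κ μ : ℝ) (l : ℕ) : 0 ≤ ell κ μ l := Real.sqrt_nonneg _

theorem ell_sq {κ μ : ℝ} (hκ : 0 < κ) (hμ : 0 ≤ μ) (l : ℕ) :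
    κ * ell κ μ l ^ 2 = 2 ^ l * (1 + μ * 2 ^ l) := by
  unfold ell
  rw [Real.sq_sqrt (by positivity)]
  field_simp

theorem ell_succ {κ μ : ℝ} (hκ : 0 < κ) (hμ : 0 ≤ μ) (l : ℕ) :
    ell κ μ (l + 1) ≤ 2 * ell κ μ l := by
  have h1 := ell_sq hκ hμ l
  have h2 := ell_sq hκ hμ (l + 1)
  have h3 : ell κ μ (l + 1) ^ 2 ≤ (2 * ell κ μ l) ^ 2 := by
    have h4 : κ * ell κ μ (l + 1) ^ 2 ≤ κ * (2 * ell κ μ l) ^ 2 := by
      have e : κ * (2 * ell κ μ l) ^ 2 = 4 * (κ * ell κ μ l ^ 2) := by ring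
      rw [e, h1, h2]
      have hp : (0 : ℝ) < 2 ^ l := by positivity
      have e2 : (2 : ℝ) ^ (l + 1) = 2 * 2 ^ l := by ring
      rw [e2]
      nlinarith [mul_nonneg hμ (sq_nonneg ((2 : ℝ) ^ l))]
    exact le_of_mul_le_mul_left h4 hκ
  have h5 := ell_nonneg κ μ l
  exact (abs_le_of_sq_le_sq' h3 (by linarith)).2

theorem ell_dl {κ μ : ℝ} (hκ : 0 < κ) (hμ : 0 ≤ μ) (l : ℕ) :
    ell κ μ l * dl κ μ l = 6 * (1 + μ * 2 ^ l) := by
  unfold ell dl
  have hp : (0 : ℝ) < 2 ^ l := by positivity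
  have h : √(2 ^ l * (1 + μ * 2 ^ l) / κ) * √(κ * (1 + μ * 2 ^ l) / 2 ^ l) = 1 + μ * 2 ^ l := by
    rw [← Real.sqrt_mul (by positivity)]
    have : 2 ^ l * (1 + μ * 2 ^ l) / κ * (κ * (1 + μ * 2 ^ l) / 2 ^ l) = (1 + μ * 2 ^ l) ^ 2 := by
      field_simp
    rw [this, Real.sqrt_sq (by positivity)]
  calc _ = 6 * (√(2 ^ l * (1 + μ * 2 ^ l) / κ) * √(κ * (1 + μ * 2 ^ l) / 2 ^ l)) := by ring
    _ = _ := by rw [h]

theorem dl_nonneg (κ μ : ℝ) (l : ℕ) : 0 ≤ dl κ μ l := by unfold dl; positivity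

theorem dl_pos {κ μ : ℝ} (hκ : 0 < κ) (hμ : 0 ≤ μ) (l : ℕ) : 0 < dl κ μ l := by
  unfold dl
  have : 0 < κ * (1 + μ * 2 ^ l) / 2 ^ l := by positivity
  have := Real.sqrt_pos.2 this
  positivity

theorem dl_sq_ge {κ μ : ℝ} (hκ : 0 < κ) (hμ : 0 ≤ μ) (l : ℕ) :
    36 * (κ / 2 ^ l) ≤ dl κ μ l ^ 2 := by
  unfold dl
  rw [mul_pow, Real.sq_sqrt (by positivity)]
  have hp : (0 : ℝ) < 2 ^ l := by positivity
  have h1 : κ / 2 ^ l ≤ κ * (1 + μ * 2 ^ l) / 2 ^ l := by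
    apply div_le_div_of_nonneg_right _ hp.le
    nlinarith [mul_nonneg hμ hp.le]
  linarith

/-- one summand of the potential -/
noncomputable def F (c : J → V → ℝ) (κ μ : ℝ) (a : J → ℝ) (A : Finset V) (x : V → ℝ) (l : J → ℕ)
    (h : J → ℝ) (σ : J → Fin 3) : ℝ :=
  (∏ j, gc μ (a j) (l j) (σ j)) *
    exp (∑ j, sgn (σ j) * ell κ μ (l j) * (rs c x j - h j)
      + JJ c κ A l (fun j => sgn (σ j) * ell κ μ (l j)) / 2)

/-- the potential of one test -/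
noncomputable def P (c : J → V → ℝ) (κ μ : ℝ) (a : J → ℝ) (A : Finset V) (x : V → ℝ) (l : J → ℕ)
    (h : J → ℝ) : ℝ :=
  ∑ σ : J → Fin 3, F c κ μ a A x l h σ

theorem sum_update (f : (J → Fin 3) → ℝ) (S : J) :
    ∑ σ, ∑ s, f (Function.update σ S s) = 3 * ∑ σ, f σ := by
  have h1 : ∑ σ : J → Fin 3, ∑ s : Fin 3, f (Function.update σ S s)
      = ∑ q : (J → Fin 3) × Fin 3, f (Function.update q.1 S q.2) := by
    rw [Fintype.sum_prod_type]
  have h2 : ∑ q : (J → Fin 3) × Fin 3, f (Function.update q.1 S q.2)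
      = ∑ q : (J → Fin 3) × Fin 3, f q.1 := by
    refine Finset.sum_nbij' (fun q => (Function.update q.1 S q.2, q.1 S))
      (fun q => (Function.update q.1 S q.2, q.1 S)) ?_ ?_ ?_ ?_ ?_
    · intro q _; simp
    · intro q _; simp
    · intro q _; simp
    · intro q _; simp
    · intro q _; simp
  rw [h1, h2, Fintype.sum_prod_type]
  simp only [Finset.sum_const, Finset.card_univ, Fintype.card_fin, nsmul_eq_mul]
  rw [Finset.mul_sum]
  norm_num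

theorem P_ge (c : J → V → ℝ) (κ : ℝ) {μ : ℝ} (hμ : 0 ≤ μ) {a : J → ℝ} (ha : ∀ j, 0 ≤ a j)
    (A : Finset V) (x : V → ℝ) (l : J → ℕ) (h : J → ℝ) :
    exp (μ * ∑ j, 2 ^ l j * a j) ≤ P c κ μ a A x l h := by
  have h1 : ∑ σ : J → Fin 3, ∏ j, (gc μ (a j) (l j) (σ j)
      * exp (sgn (σ j) * ell κ μ (l j) * (rs c x j - h j))) ≤ P c κ μ a A x l h := by
    unfold P F
    refine Finset.sum_le_sum fun σ _ => ?_
    rw [Finset.prod_mul_distrib, ← exp_sum]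
    apply mul_le_mul_of_nonneg_left
    · apply exp_le_exp.2
      have := JJ_nonneg c κ A l (fun j => sgn (σ j) * ell κ μ (l j))
      linarith
    · exact Finset.prod_nonneg fun j _ => gc_nonneg hμ (ha j) _ _
  refine le_trans ?_ h1
  have h2 := Finset.prod_univ_sum (fun _ : J => (Finset.univ : Finset (Fin 3)))
    (fun j s => gc μ (a j) (l j) s * exp (sgn s * ell κ μ (l j) * (rs c x j - h j)))
  rw [Fintype.piFinset_univ] at h2
  rw [← h2, Finset.mul_sum, exp_sum]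
  refine Finset.prod_le_prod (fun j _ => (exp_pos _).le) fun j _ => ?_
  rw [Fin.sum_univ_three, gc_zero, gc_one, gc_two, sgn_zero, sgn_one, sgn_two]
  set t := ell κ μ (l j) * (rs c x j - h j) with ht
  have e1 : (0 : ℝ) * ell κ μ (l j) * (rs c x j - h j) = 0 := by ring
  have e2 : (1 : ℝ) * ell κ μ (l j) * (rs c x j - h j) = t := by rw [ht]; ring
  have e3 : (-1 : ℝ) * ell κ μ (l j) * (rs c x j - h j) = -t := by rw [ht]; ring
  have e4 : μ * (2 ^ l j * a j) = μ * 2 ^ l j * a j := by ring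
  rw [e1, e2, e3, e4, exp_zero]
  have g0 : 0 ≤ (exp (μ * 2 ^ l j * a j) - 1) / 2 := by
    have := gc_nonneg hμ (ha j) (l j) 1
    rwa [gc_one] at this
  have g1 := add_one_le_exp t
  have g2 := add_one_le_exp (-t)
  nlinarith

theorem P_init (c : J → V → ℝ) {κ μ : ℝ} (hκ : 0 < κ) (hμ : 0 ≤ μ) (hμ1 : μ ≤ 1) {a : J → ℝ}
    (ha : ∀ j, 0 ≤ a j) (ha1 : ∀ j, a j ≤ 1) (A : Finset V) (x : V → ℝ) :
    P c κ μ a A x (fun _ => 0) (rs c x) ≤ exp (6 * μ * ∑ j, a j) := by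
  have h1 : P c κ μ a A x (fun _ => 0) (rs c x) ≤ ∑ σ : J → Fin 3, ∏ j, (gc μ (a j) 0 (σ j)
      * exp (sgn (σ j) ^ 2)) := by
    unfold P F
    refine Finset.sum_le_sum fun σ _ => ?_
    rw [Finset.prod_mul_distrib, ← exp_sum]
    apply mul_le_mul_of_nonneg_left
    · apply exp_le_exp.2
      have h2 := JJ_le c hκ A (fun _ => 0) (fun j => sgn (σ j) * ell κ μ 0)
      have h3 : ∑ j, sgn (σ j) * ell κ μ 0 * (rs c x j - rs c x j) = 0 :=
        Finset.sum_eq_zero fun j _ => by ring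
      rw [h3, zero_add]
      have h4 : ∑ j, κ * (sgn (σ j) * ell κ μ 0) ^ 2 / 2 ^ 0 ≤ ∑ j, 2 * sgn (σ j) ^ 2 := by
        refine Finset.sum_le_sum fun j _ => ?_
        have h5 := ell_sq hκ hμ 0
        have e : κ * (sgn (σ j) * ell κ μ 0) ^ 2 / 2 ^ 0 = sgn (σ j) ^ 2 * (κ * ell κ μ 0 ^ 2) := by
          ring
        rw [e, h5]
        nlinarith [sq_nonneg (sgn (σ j))]
      rw [← Finset.mul_sum] at h4
      linarith
    · exact Finset.prod_nonneg fun j _ => gc_nonneg hμ (ha j) _ _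
  refine h1.trans ?_
  have h2 := Finset.prod_univ_sum (fun _ : J => (Finset.univ : Finset (Fin 3)))
    (fun j s => gc μ (a j) 0 s * exp (sgn s ^ 2))
  rw [Fintype.piFinset_univ] at h2
  rw [← h2, Finset.mul_sum, exp_sum]
  refine Finset.prod_le_prod (fun j _ => ?_) fun j _ => ?_
  · exact Finset.sum_nonneg fun s _ => mul_nonneg (gc_nonneg hμ (ha j) _ _) (exp_pos _).le
  rw [Fin.sum_univ_three, gc_zero, gc_one, gc_two, sgn_zero, sgn_one, sgn_two]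
  have e1 : ((-1 : ℝ)) ^ 2 = 1 := by norm_num
  have e2 : ((0 : ℝ)) ^ 2 = 0 := by norm_num
  rw [e1, e2, one_pow, exp_zero, pow_zero]
  set y := μ * a j with hy
  have e5 : μ * 1 * a j = y := by rw [hy]; ring
  rw [e5]
  have hy0 : 0 ≤ y := mul_nonneg hμ (ha j)
  have hy1 : y ≤ 1 := by
    rw [hy]; nlinarith [ha j, ha1 j]
  have h3 : exp y ≤ 1 + 2 * y := by
    have := abs_exp_sub_one_le (x := y) (by rw [abs_of_nonneg hy0]; exact hy1)
    rw [abs_of_nonneg hy0] at this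
    have h4 := le_abs_self (exp y - 1)
    linarith
  have he : exp 1 ≤ 3 := by
    have := Real.exp_one_lt_d9
    linarith
  have h5 : 1 ≤ exp y := one_le_exp hy0
  have h6 := add_one_le_exp (6 * μ * a j)
  have h7 : (exp y - 1) * exp 1 ≤ 2 * y * 3 := by
    apply mul_le_mul (by linarith) he (exp_pos _).le (by linarith)
  have e3 : 6 * μ * a j = 6 * y := by rw [hy]; ring
  rw [e3] at h6 ⊢
  nlinarith

theorem P_mono (c : J → V → ℝ) (κ : ℝ) {μ : ℝ} (hμ : 0 ≤ μ) {a : J → ℝ} (ha : ∀ j, 0 ≤ a j)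
    {A A' : Finset V} (hA : A' ⊆ A) (x : V → ℝ) (l : J → ℕ) (h : J → ℝ) :
    P c κ μ a A' x l h ≤ P c κ μ a A x l h := by
  unfold P F
  refine Finset.sum_le_sum fun σ _ => ?_
  apply mul_le_mul_of_nonneg_left
  · apply exp_le_exp.2
    have := JJ_mono c κ hA l (fun j => sgn (σ j) * ell κ μ (l j))
    linarith
  · exact Finset.prod_nonneg fun j _ => gc_nonneg hμ (ha j) _ _

end Pool.Agent.Helper22.LT
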